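import Pool.Agent.K9h7.CFS.Stm

namespace Pool.Agent.K9h7.CFS

open Pool.Agent.H7X.CF

universe u

section contraction

variable {V : Type u} {G : SimpleGraph V}

/-- Every vertex in a triangle has three neighbours. -/
def Full (G : SimpleGraph V) : Prop :=
  ∀ v, T G v → ∃ x y z, x ≠ y ∧ x ≠ z ∧ y ≠ z ∧ G.Adj x y ∧ ∀ w, G.Adj v w ↔ w = x ∨ w = y ∨ w = z

/-- Marked pairs. -/
def Sr (G : SimpleGraph V) (x y : V) : Prop := x ≠ y ∧ ∃ v, ¬ T G v ∧ G.Adj x v ∧ G.Adj v y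

lemma Sr.symm {x y : V} (h : Sr G x y) : Sr G y x := by
  obtain ⟨h1, v, h2, h3, h4⟩ := h
  exact ⟨h1.symm, v, h2, h4.symm, h3.symm⟩

/-- The contracted graph. -/
def Hc (G : SimpleGraph V) : SimpleGraph {v : V // T G v} where
  Adj x y := G.Adj x.1 y.1 ∨ Sr G x.1 y.1
  symm := ⟨fun x y h => h.elim (fun h => Or.inl h.symm) (fun h => Or.inr h.symm)⟩
  loopless := ⟨fun x h => h.elim (fun h => G.loopless.irrefl _ h) (fun h => h.1 rfl)⟩

lemma Hc_adj {x y : {v : V // T G v}} : (Hc G).Adj x y ↔ G.Adj x.1 y.1 ∨ Sr G x.1 y.1 := Iff.rfl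

lemma T_of_adj {x y z : V} (h1 : G.Adj x y) (h2 : G.Adj x z) (h3 : G.Adj y z) : T G x :=
  ⟨y, z, h1, h2, h3⟩

lemma not_adj_of_Sr {x y : V} (h : Sr G x y) : ¬ G.Adj x y := by
  obtain ⟨h1, v, h2, h3, h4⟩ := h
  intro h5
  exact h2 (T_of_adj h3.symm h4 h5)

/-- Neighbourhoods in the contracted graph. -/
lemma Hc_nb (hR : Red G) (hF : Full G) (x : {v : V // T G v}) :
    ∃ p q r : {v : V // T G v}, p ≠ q ∧ p ≠ r ∧ q ≠ r ∧ (Hc G).Adj p q ∧
      (∀ w, (Hc G).Adj x w ↔ w = p ∨ w = q ∨ w = r) ∧ G.Adj x.1 p.1 ∧ G.Adj x.1 q.1 ∧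
      ∀ w, Sr G x.1 w → w = r.1 := by
  obtain ⟨p, q, e, h1, h2, h3, h4, h⟩ := hF x.1 x.2
  have hxp : G.Adj x.1 p := (h p).2 (by simp)
  have hxq : G.Adj x.1 q := (h q).2 (by simp)
  have hxe : G.Adj x.1 e := (h e).2 (by simp)
  have hTp : T G p := T_of_adj hxp.symm h4 hxq
  have hTq : T G q := T_of_adj hxq.symm h4.symm hxp
  by_cases hTe : T G e
  · have hno : ∀ w, ¬ Sr G x.1 w := by
      rintro w ⟨-, v, hv, hxv, -⟩
      rcases (h v).1 hxv with rfl | rfl | rfl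
      · exact hv hTp
      · exact hv hTq
      · exact hv hTe
    refine ⟨⟨p, hTp⟩, ⟨q, hTq⟩, ⟨e, hTe⟩, ?_, ?_, ?_, Or.inl h4, ?_, hxp, hxq,
      fun w hw => absurd hw (hno w)⟩
    · simpa using h1
    · simpa using h2
    · simpa using h3
    · rintro ⟨w, hw⟩
      rw [Hc_adj]
      simp only [Subtype.mk.injEq]
      rw [← h w]
      exact ⟨fun h => h.elim id (fun h => absurd h (hno w)), Or.inl⟩
  · rcases hR.pt e hTe with hiso | ⟨a, b, hab, hnb, hTa, hTb, hcom⟩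
    · exact absurd hxe.symm (hiso _)
    · -- the other neighbour of `e`
      have hb : ∃ b', b' ≠ x.1 ∧ T G b' ∧ ∀ w, G.Adj e w ↔ w = x.1 ∨ w = b' := by
        rcases (hnb x.1).1 hxe.symm with hxa | hxb
        · exact ⟨b, fun h => hab (hxa ▸ h.symm), hTb, fun w => by rw [hnb w, hxa]⟩
        · exact ⟨a, fun h => hab (h.trans hxb), hTa, fun w => by rw [hnb w, hxb]; tauto⟩
      obtain ⟨b', hb1, hb2, hb3⟩ := hb
      have heb : G.Adj e b' := (hb3 b').2 (Or.inr rfl)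
      have hsr : Sr G x.1 b' := ⟨hb1.symm, e, hTe, hxe, heb⟩
      have hpb : p ≠ b' := by
        rintro rfl
        exact hTe (T_of_adj hxe.symm heb hxp)
      have hqb : q ≠ b' := by
        rintro rfl
        exact hTe (T_of_adj hxe.symm heb hxq)
      have hun : ∀ w, Sr G x.1 w → w = b' := by
        rintro w ⟨hne, v, hv, hxv, hvw⟩
        rcases (h v).1 hxv with rfl | rfl | rfl
        · exact absurd hTp hv
        · exact absurd hTq hv
        · rcases (hb3 w).1 hvw with h5 | h5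
          · exact absurd h5.symm hne
          · exact h5
      refine ⟨⟨p, hTp⟩, ⟨q, hTq⟩, ⟨b', hb2⟩, ?_, ?_, ?_, Or.inl h4, ?_, hxp, hxq, hun⟩
      · simpa using h1
      · simpa using hpb
      · simpa using hqb
      · rintro ⟨w, hw⟩
        rw [Hc_adj]
        simp only [Subtype.mk.injEq]
        constructor
        · rintro (h5 | h5)
          · rcases (h w).1 h5 with h6 | h6 | h6
            · exact Or.inl h6
            · exact Or.inr (Or.inl h6)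
            · exact absurd (h6 ▸ hw) hTe
          · exact Or.inr (Or.inr (hun w h5))
        · rintro (rfl | rfl | rfl)
          · exact Or.inl hxp
          · exact Or.inl hxq
          · exact Or.inr hsr

/-- A marked edge lies in no triangle of the contracted graph. -/
lemma Sr_no_common (hR : Red G) (hF : Full G) {x y z : {v : V // T G v}} (hs : Sr G x.1 y.1)
    (h1 : (Hc G).Adj x z) (h2 : (Hc G).Adj y z) : False := by
  have hxz : G.Adj x.1 z.1 := by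
    rcases h1 with h1 | h1
    · exact h1
    · obtain ⟨p, q, r, -, -, -, -, -, -, -, hun⟩ := Hc_nb hR hF x
      have h3 := (hun _ h1).trans (hun _ hs).symm
      have : z = y := Subtype.ext h3
      subst this
      exact absurd h2 ((Hc G).loopless.irrefl _)
  have hyz : G.Adj y.1 z.1 := by
    rcases h2 with h2 | h2
    · exact h2
    · obtain ⟨p, q, r, -, -, -, -, -, -, -, hun⟩ := Hc_nb hR hF y
      have h3 := (hun _ h2).trans (hun _ hs.symm).symm
      have : z = x := Subtype.ext h3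
      subst this
      exact absurd h1 ((Hc G).loopless.irrefl _)
  obtain ⟨hne, v, hv, hxv, hvy⟩ := hs
  rcases hR.pt v hv with hiso | ⟨a, b, hab, hnb, hTa, hTb, hcom⟩
  · exact hiso _ hvy
  · have h3 := (hnb x.1).1 hxv.symm
    have h4 := (hnb y.1).1 hvy
    have h5 : z.1 = v := by
      rcases h3 with h3 | h3 <;> rcases h4 with h4 | h4
      · exact absurd (h3.trans h4.symm) hne
      · rw [h3] at hxz
        rw [h4] at hyz
        exact hcom _ hxz hyz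
      · rw [h3] at hxz
        rw [h4] at hyz
        exact hcom _ hyz hxz
      · exact absurd (h3.trans h4.symm) hne
    exact hv (h5 ▸ z.2)

lemma CF_Hc (hR : Red G) (hF : Full G) : CF (Hc G) := by
  refine ⟨?_, ?_, ?_⟩
  · intro x
    obtain ⟨p, q, r, h1, h2, h3, -, h, -⟩ := Hc_nb hR hF x
    exact ⟨p, q, r, h1, h2, h3, h⟩
  · intro v x y z h1 h2 h3 h4 h5 h6
    obtain ⟨p, q, r, k1, k2, k3, k4, k, -⟩ := Hc_nb hR hF v
    have a1 := (k x).1 h1
    have a2 := (k y).1 h2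
    have a3 := (k z).1 h3
    have k5 := k4.symm
    grind
  · intro v x y z h1 h2 h3 h4 h5 h6
    have g1 : G.Adj v.1 x.1 := h1.elim id (fun h => (Sr_no_common hR hF h h2 h4).elim)
    have g2 : G.Adj v.1 y.1 := h2.elim id (fun h => (Sr_no_common hR hF h h1 h4.symm).elim)
    have g3 : G.Adj v.1 z.1 := h3.elim id (fun h => (Sr_no_common hR hF h h1 h5.symm).elim)
    have g4 : G.Adj x.1 y.1 := h4.elim id (fun h => (Sr_no_common hR hF h h1.symm h2.symm).elim)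
    have g5 : G.Adj x.1 z.1 := h5.elim id (fun h => (Sr_no_common hR hF h h1.symm h3.symm).elim)
    have g6 : G.Adj y.1 z.1 := h6.elim id (fun h => (Sr_no_common hR hF h h2.symm h3.symm).elim)
    exact hR.noK _ _ _ _ g1 g2 g3 g4 g5 g6

theorem good_full (hA : S_marked.{u}) [Finite V] (hR : Red G) (hF : Full G) :
    ∃ f : V → Fin 4, Good G f := by
  classical
  obtain ⟨D, C, g, hD1, hD2, hD3, hC1, hC2, hg⟩ := hA {v : V // T G v} (Hc G)
    (fun x y => Sr G x.1 y.1) (CF_Hc hR hF) (fun x y h => h.symm)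
    (fun x y h => ⟨Or.inr h, fun w h1 h2 => Sr_no_common hR hF h h1 h2⟩)
  let fT : {v : V // T G v} → Fin 4 := fun x =>
    if D x then 3 else if C x then 2 else if g x then 1 else 0
  have f3 : ∀ x, fT x = 3 → D x := by
    intro x hx
    by_contra h
    simp only [fT, h, if_false] at hx
    split_ifs at hx <;> simp at hx
  have f2 : ∀ x, fT x = 2 → C x := by
    intro x hx
    by_contra h
    simp only [fT, h, if_false] at hx
    split_ifs at hx <;> simp at hx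
  have f01 : ∀ x, fT x ≠ 3 → fT x ≠ 2 → ¬ D x ∧ ¬ C x ∧ fT x = if g x then 1 else 0 := by
    intro x h3 h2
    by_cases hD : D x
    · exact absurd (by simp [fT, hD]) h3
    · by_cases hC : C x
      · exact absurd (by simp [fT, hD, hC]) h2
      · exact ⟨hD, hC, by simp [fT, hD, hC]⟩
  have hch : ∀ v, ∃ c : Fin 4, ¬ T G v → (c = 0 ∨ c = 1) ∧
      ∀ (w : V) (hw : T G w), G.Adj v w → fT ⟨w, hw⟩ ≠ c := by
    intro v
    by_cases hv : T G v
    · exact ⟨0, fun h => absurd hv h⟩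
    · rcases hR.pt v hv with hiso | ⟨a, b, hab, hnb, hTa, hTb, -⟩
      · exact ⟨0, fun _ => ⟨Or.inl rfl, fun w _ hw => absurd hw (hiso w)⟩⟩
      · have hs : Sr G a b := ⟨hab, v, hv, ((hnb a).2 (Or.inl rfl)).symm, (hnb b).2 (Or.inr rfl)⟩
        have key : ∃ c : Fin 4, (c = 0 ∨ c = 1) ∧ fT ⟨a, hTa⟩ ≠ c ∧ fT ⟨b, hTb⟩ ≠ c := by
          by_cases ha : fT ⟨a, hTa⟩ = 3 ∨ fT ⟨a, hTa⟩ = 2
          · by_cases hb : fT ⟨b, hTb⟩ = 0
            · exact ⟨1, Or.inr rfl, by rcases ha with h | h <;> rw [h] <;> decide,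
                by rw [hb]; decide⟩
            · exact ⟨0, Or.inl rfl, by rcases ha with h | h <;> rw [h] <;> decide, hb⟩
          · by_cases hb : fT ⟨b, hTb⟩ = 3 ∨ fT ⟨b, hTb⟩ = 2
            · by_cases ha' : fT ⟨a, hTa⟩ = 0
              · exact ⟨1, Or.inr rfl, by rw [ha']; decide,
                  by rcases hb with h | h <;> rw [h] <;> decide⟩
              · exact ⟨0, Or.inl rfl, ha', by rcases hb with h | h <;> rw [h] <;> decide⟩
            · push Not at ha hb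
              obtain ⟨a1, a2, a3⟩ := f01 _ ha.1 ha.2
              obtain ⟨b1, b2, b3⟩ := f01 _ hb.1 hb.2
              have := (hg ⟨a, hTa⟩ ⟨b, hTb⟩ (Or.inr hs) a1 a2 b1 b2).2 hs
              rw [a3, b3, ← this]
              cases g ⟨a, hTa⟩
              · exact ⟨1, Or.inr rfl, by decide, by decide⟩
              · exact ⟨0, Or.inl rfl, by decide, by decide⟩
        obtain ⟨c, hc1, hc2, hc3⟩ := key
        refine ⟨c, fun _ => ⟨hc1, ?_⟩⟩
        intro w hw hvw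
        rcases (hnb w).1 hvw with rfl | rfl
        · exact hc2
        · exact hc3
  choose c hc using hch
  let f : V → Fin 4 := fun v => if h : T G v then fT ⟨v, h⟩ else c v
  have fT' : ∀ v (hv : T G v), f v = fT ⟨v, hv⟩ := fun v hv => by simp [f, hv]
  have fN : ∀ v, ¬ T G v → f v = c v := fun v hv => by simp [f, hv]
  have hTN : ∀ v w, ¬ T G v → G.Adj v w → T G w := by
    intro v w hv hvw
    rcases hR.pt v hv with hiso | ⟨a, b, hab, hnb, hTa, hTb, -⟩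
    · exact absurd hvw (hiso w)
    · rcases (hnb w).1 hvw with rfl | rfl
      · exact hTa
      · exact hTb
  have hT3 : ∀ v, f v = 3 → ∃ h : T G v, D ⟨v, h⟩ := by
    intro v hv
    by_cases h : T G v
    · rw [fT' v h] at hv
      exact ⟨h, f3 _ hv⟩
    · rw [fN v h] at hv
      rcases (hc v h).1 with h1 | h1 <;> rw [h1] at hv <;> simp at hv
  have hT2 : ∀ v, f v = 2 → ∃ h : T G v, C ⟨v, h⟩ := by
    intro v hv
    by_cases h : T G v
    · rw [fT' v h] at hv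
      exact ⟨h, f2 _ hv⟩
    · rw [fN v h] at hv
      rcases (hc v h).1 with h1 | h1 <;> rw [h1] at hv <;> simp at hv
  refine ⟨f, ?_, ?_, ?_, ?_⟩
  · intro u v huv he
    by_cases hu : T G u
    · by_cases hv : T G v
      · have hadj : (Hc G).Adj ⟨u, hu⟩ ⟨v, hv⟩ := Or.inl huv
        by_cases h3 : f u = 3
        · obtain ⟨k1, k2⟩ := hT3 u h3
          obtain ⟨k3, k4⟩ := hT3 v (he ▸ h3)
          exact hD1 _ _ hadj k2 k4
        by_cases h2 : f u = 2
        · obtain ⟨k1, k2⟩ := hT2 u h2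
          obtain ⟨k3, k4⟩ := hT2 v (he ▸ h2)
          exact hC1 _ _ hadj k2 k4
        have hv3 : f v ≠ 3 := he ▸ h3
        have hv2 : f v ≠ 2 := he ▸ h2
        rw [fT' u hu] at h3 h2 he
        rw [fT' v hv] at hv3 hv2 he
        obtain ⟨a1, a2, a3⟩ := f01 _ h3 h2
        obtain ⟨b1, b2, b3⟩ := f01 _ hv3 hv2
        have h5 := hg _ _ hadj a1 a2 b1 b2
        rw [a3, b3] at he
        have h6 : g ⟨u, hu⟩ = g ⟨v, hv⟩ := by
          revert he
          cases g ⟨u, hu⟩ <;> cases g ⟨v, hv⟩ <;> simp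
        exact not_adj_of_Sr (h5.1 h6) huv
      · rw [fT' u hu, fN v hv] at he
        exact (hc v hv).2 u hu huv.symm he
    · have hv := hTN u v hu huv
      rw [fN u hu, fT' v hv] at he
      exact (hc u hu).2 v hv huv he.symm
  · intro u v w huv hvw hne hu hw
    obtain ⟨hu1, hu2⟩ := hT2 u hu
    obtain ⟨hw1, hw2⟩ := hT2 w hw
    by_cases hv : T G v
    · exact hC2 ⟨u, hu1⟩ ⟨v, hv⟩ ⟨w, hw1⟩ (Or.inl huv) (Or.inl hvw)
        (fun h => not_adj_of_Sr h huv) (fun h => not_adj_of_Sr h hvw) (by simpa using hne) hu2 hw2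
    · exact hC1 ⟨u, hu1⟩ ⟨w, hw1⟩ (Or.inr ⟨hne, v, hv, huv, hvw⟩) hu2 hw2
  · intro u v w huv hvw hne hu hw
    obtain ⟨hu1, hu2⟩ := hT3 u hu
    obtain ⟨hw1, hw2⟩ := hT3 w hw
    by_cases hv : T G v
    · exact hD2 ⟨u, hu1⟩ ⟨v, hv⟩ ⟨w, hw1⟩ (Or.inl huv) (Or.inl hvw) (by simpa using hne) hu2 hw2
    · exact hD1 ⟨u, hu1⟩ ⟨w, hw1⟩ (Or.inr ⟨hne, v, hv, huv, hvw⟩) hu2 hw2
  · intro u v w x huv hvw hwx hne hu hx
    obtain ⟨hu1, hu2⟩ := hT3 u hu
    obtain ⟨hx1, hx2⟩ := hT3 x hx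
    by_cases hv : T G v
    · by_cases hw : T G w
      · exact hD3 ⟨u, hu1⟩ ⟨v, hv⟩ ⟨w, hw⟩ ⟨x, hx1⟩ (Or.inl huv) (Or.inl hvw) (Or.inl hwx)
          (by simpa using hne) hu2 hx2
      · by_cases hvx : v = x
        · subst hvx
          exact hD1 ⟨u, hu1⟩ ⟨v, hx1⟩ (Or.inl huv) hu2 hx2
        · exact hD2 ⟨u, hu1⟩ ⟨v, hv⟩ ⟨x, hx1⟩ (Or.inl huv) (Or.inr ⟨hvx, w, hw, hvw, hwx⟩)
            (by simpa using hne) hu2 hx2
    · have hw : T G w := hTN v w hv hvw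
      by_cases huw : u = w
      · subst huw
        exact hD1 ⟨u, hu1⟩ ⟨x, hx1⟩ (Or.inl hwx) hu2 hx2
      · exact hD2 ⟨u, hu1⟩ ⟨w, hw⟩ ⟨x, hx1⟩ (Or.inr ⟨huw, v, hv, huv, hvw⟩) (Or.inl hwx)
          (by simpa using hne) hu2 hx2

end contraction

section doubling

variable {V : Type u} {G : SimpleGraph V}

/-- At most two neighbours. -/
def Two2 (G : SimpleGraph V) (v : V) : Prop :=
  ∀ a b c, G.Adj v a → G.Adj v b → G.Adj v c → a = b ∨ a = c ∨ b = c

/-- The doubled graph. -/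
def dbl (G : SimpleGraph V) : SimpleGraph (V × Bool) where
  Adj x y := (x.2 = y.2 ∧ G.Adj x.1 y.1) ∨ (x.1 = y.1 ∧ x.2 ≠ y.2 ∧ T G x.1 ∧ Two2 G x.1)
  symm := ⟨by
    rintro ⟨x, i⟩ ⟨y, j⟩ (⟨h1, h2⟩ | ⟨h1, h2, h3⟩)
    · exact Or.inl ⟨h1.symm, h2.symm⟩
    · simp only at h1 h2
      subst h1
      exact Or.inr ⟨rfl, h2.symm, h3⟩⟩
  loopless := ⟨by
    rintro ⟨x, i⟩ (⟨h1, h2⟩ | ⟨h1, h2, h3⟩)
    · exact G.loopless.irrefl _ h2
    · exact h2 rfl⟩

lemma dbl_adj {x y : V} {i j : Bool} : (dbl G).Adj (x, i) (y, j) ↔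
    (i = j ∧ G.Adj x y) ∨ (x = y ∧ i ≠ j ∧ T G x ∧ Two2 G x) := Iff.rfl

lemma cross_no (x z : V) (i k : Bool) (h1 : (dbl G).Adj (x, i) (z, k))
    (h2 : (dbl G).Adj (x, !i) (z, k)) : False := by
  rcases h1 with ⟨h3, h4⟩ | ⟨h3, h4, -⟩ <;> rcases h2 with ⟨h5, h6⟩ | ⟨h5, h6, -⟩
  · simp only at h3 h5
    subst h3
    cases i <;> simp at h5
  · simp only at h5
    subst h5
    exact G.loopless.irrefl _ h4
  · simp only at h3
    subst h3
    exact G.loopless.irrefl _ h6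
  · simp only at h4 h6
    cases i <;> cases k <;> simp at h4 h6

lemma tri_same {x y z : V} {i j k : Bool} (h1 : (dbl G).Adj (x, i) (y, j))
    (h2 : (dbl G).Adj (x, i) (z, k)) (h3 : (dbl G).Adj (y, j) (z, k)) :
    i = j ∧ i = k ∧ G.Adj x y ∧ G.Adj x z ∧ G.Adj y z := by
  have key : ∀ (x y z : V) (i j k : Bool), (dbl G).Adj (x, i) (y, j) →
      (dbl G).Adj (x, i) (z, k) → (dbl G).Adj (y, j) (z, k) → i = j ∧ G.Adj x y := by
    intro x y z i j k h1 h2 h3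
    rcases h1 with h1 | ⟨h4, h5, -⟩
    · exact h1
    · exfalso
      simp only at h4 h5
      subst h4
      have : j = !i := by cases i <;> cases j <;> simp at h5 ⊢
      subst this
      exact cross_no x z i k h2 h3
  obtain ⟨a1, a2⟩ := key _ _ _ _ _ _ h1 h2 h3
  obtain ⟨a3, a4⟩ := key _ _ _ _ _ _ h2 h1 h3.symm
  obtain ⟨a5, a6⟩ := key _ _ _ _ _ _ h3 h1.symm h2.symm
  exact ⟨a1, a3, a2, a4, a6⟩

lemma T_dbl {v : V} {i : Bool} : T (dbl G) (v, i) ↔ T G v := by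
  constructor
  · rintro ⟨⟨x, j⟩, ⟨y, k⟩, h1, h2, h3⟩
    obtain ⟨-, -, h4, h5, h6⟩ := tri_same h1 h2 h3
    exact ⟨x, y, h4, h5, h6⟩
  · rintro ⟨x, y, h1, h2, h3⟩
    exact ⟨(x, i), (y, i), Or.inl ⟨rfl, h1⟩, Or.inl ⟨rfl, h2⟩, Or.inl ⟨rfl, h3⟩⟩

/-- The neighbourhoods of vertices in triangles. -/
lemma nb_T (hS : Sub G) {v : V} (hv : T G v) : ∃ x y, x ≠ y ∧ G.Adj x y ∧
    ((∀ w, G.Adj v w ↔ w = x ∨ w = y) ∧ Two2 G v ∨
      ∃ z, x ≠ z ∧ y ≠ z ∧ (∀ w, G.Adj v w ↔ w = x ∨ w = y ∨ w = z) ∧ ¬ Two2 G v) := by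
  obtain ⟨x, y, h1, h2, h3⟩ := hv
  refine ⟨x, y, h3.ne, h3, ?_⟩
  by_cases h : Two2 G v
  · left
    refine ⟨fun w => ⟨fun hw => ?_, ?_⟩, h⟩
    · have := h x y w h1 h2 hw
      have := h3.ne
      grind
    · rintro (rfl | rfl)
      · exact h1
      · exact h2
  · right
    have : ∃ z, x ≠ z ∧ y ≠ z ∧ G.Adj v z := by
      by_contra hcon
      push Not at hcon
      apply h
      intro a b c ha hb hc
      have key : ∀ t, G.Adj v t → x = t ∨ y = t := by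
        intro t ht
        by_contra hc
        push Not at hc
        exact hcon t hc.1 hc.2 ht
      have a1 := key a ha
      have a2 := key b hb
      have a3 := key c hc
      clear hcon key h
      grind
    obtain ⟨z, hz1, hz2, hz3⟩ := this
    refine ⟨z, hz1, hz2, fun w => ⟨fun hw => ?_, ?_⟩, h⟩
    · have := hS v x y z w h1 h2 hz3 hw
      have := h3.ne
      grind
    · rintro (rfl | rfl | rfl)
      · exact h1
      · exact h2
      · exact hz3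

lemma full_dbl (hS : Sub G) : Full (dbl G) := by
  rintro ⟨v, i⟩ hv
  rw [T_dbl] at hv
  obtain ⟨x, y, h1, h2, ⟨h3, h4⟩ | ⟨z, h3, h4, h5, h6⟩⟩ := nb_T hS hv
  · refine ⟨(x, i), (y, i), (v, !i), by simpa using h1, by simp, by simp, Or.inl ⟨rfl, h2⟩, ?_⟩
    rintro ⟨w, j⟩
    rw [dbl_adj]
    simp only [Prod.mk.injEq]
    constructor
    · rintro (⟨rfl, h5⟩ | ⟨rfl, h5, -⟩)
      · rcases (h3 w).1 h5 with h6 | h6
        · exact Or.inl ⟨h6, rfl⟩
        · exact Or.inr (Or.inl ⟨h6, rfl⟩)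
      · exact Or.inr (Or.inr ⟨rfl, by cases i <;> cases j <;> simp at h5 ⊢⟩)
    · rintro (⟨rfl, rfl⟩ | ⟨rfl, rfl⟩ | ⟨rfl, rfl⟩)
      · exact Or.inl ⟨rfl, (h3 _).2 (Or.inl rfl)⟩
      · exact Or.inl ⟨rfl, (h3 _).2 (Or.inr rfl)⟩
      · exact Or.inr ⟨rfl, by cases i <;> simp, hv, h4⟩
  · refine ⟨(x, i), (y, i), (z, i), by simpa using h1, by simpa using h3, by simpa using h4,
      Or.inl ⟨rfl, h2⟩, ?_⟩
    rintro ⟨w, j⟩
    rw [dbl_adj]
    simp only [Prod.mk.injEq]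
    constructor
    · rintro (⟨rfl, h7⟩ | ⟨-, -, -, h7⟩)
      · rcases (h5 w).1 h7 with h6 | h6 | h6
        · exact Or.inl ⟨h6, rfl⟩
        · exact Or.inr (Or.inl ⟨h6, rfl⟩)
        · exact Or.inr (Or.inr ⟨h6, rfl⟩)
      · exact absurd h7 h6
    · rintro (⟨rfl, rfl⟩ | ⟨rfl, rfl⟩ | ⟨rfl, rfl⟩)
      · exact Or.inl ⟨rfl, (h5 _).2 (by simp)⟩
      · exact Or.inl ⟨rfl, (h5 _).2 (by simp)⟩
      · exact Or.inl ⟨rfl, (h5 _).2 (by simp)⟩

lemma red_dbl (hR : Red G) : Red (dbl G) := by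
  have hfull := full_dbl hR.sub
  have hpt : ∀ v, ¬ T (dbl G) v → (∀ w, ¬ (dbl G).Adj v w) ∨
    ∃ a b, a ≠ b ∧ (∀ w, (dbl G).Adj v w ↔ w = a ∨ w = b) ∧ T (dbl G) a ∧ T (dbl G) b ∧
      ∀ w, (dbl G).Adj a w → (dbl G).Adj b w → w = v := by
    rintro ⟨v, i⟩ hv
    rw [T_dbl] at hv
    rcases hR.pt v hv with hiso | ⟨a, b, hab, hnb, hTa, hTb, hcom⟩
    · left
      rintro ⟨w, j⟩ (⟨-, h⟩ | ⟨-, -, h, -⟩)
      · exact hiso _ h
      · exact hv h
    · right
      refine ⟨(a, i), (b, i), by simpa using hab, ?_, T_dbl.2 hTa, T_dbl.2 hTb, ?_⟩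
      · rintro ⟨w, j⟩
        rw [dbl_adj]
        simp only [Prod.mk.injEq]
        constructor
        · rintro (⟨rfl, h⟩ | ⟨-, -, h, -⟩)
          · rcases (hnb w).1 h with h | h
            · exact Or.inl ⟨h, rfl⟩
            · exact Or.inr ⟨h, rfl⟩
          · exact absurd h hv
        · rintro (⟨rfl, rfl⟩ | ⟨rfl, rfl⟩)
          · exact Or.inl ⟨rfl, (hnb _).2 (Or.inl rfl)⟩
          · exact Or.inl ⟨rfl, (hnb _).2 (Or.inr rfl)⟩
      · rintro ⟨w, j⟩ h1 h2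
        rw [dbl_adj] at h1 h2
        rcases h1 with ⟨rfl, h1⟩ | ⟨rfl, h1, -⟩
        · rcases h2 with ⟨-, h2⟩ | ⟨-, h2, -⟩
          · rw [hcom w h1 h2]
          · exact absurd rfl h2
        · rcases h2 with ⟨h2, -⟩ | ⟨h2, -, -⟩
          · exact absurd h2 h1
          · exact absurd h2.symm hab
  refine ⟨?_, ?_, ?_, hpt⟩
  · intro v a b c d ha hb hc hd
    by_cases hv : T (dbl G) v
    · obtain ⟨x, y, z, h1, h2, h3, -, h⟩ := hfull v hv
      rw [h] at ha hb hc hd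
      grind
    · rcases hpt v hv with hiso | ⟨x, y, -, h, -⟩
      · exact absurd ha (hiso _)
      · rw [h] at ha hb hc hd
        grind
  · intro v a b c ha hb hc hab hac hbc
    by_cases hv : T (dbl G) v
    · obtain ⟨x, y, z, h1, h2, h3, h4, h⟩ := hfull v hv
      rw [h] at ha hb hc
      have h5 := h4.symm
      grind
    · rcases hpt v hv with hiso | ⟨x, y, -, h, -⟩
      · exact absurd ha (hiso _)
      · rw [h] at ha hb hc
        grind
  · rintro ⟨v, i⟩ ⟨x, j⟩ ⟨y, k⟩ ⟨z, l⟩ h1 h2 h3 h4 h5 h6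
    obtain ⟨-, -, g1, g2, g3⟩ := tri_same h1 h2 h4
    obtain ⟨-, -, g4, g5, g6⟩ := tri_same h2 h3 h6
    obtain ⟨-, -, g7, g8, g9⟩ := tri_same h1 h3 h5
    exact hR.noK _ _ _ _ g1 g2 g5 g3 g9 g6

/-- Leaf (B1). -/
theorem B1 (hA : S_marked.{u}) : S_red.{u} := by
  intro V _ G hR
  obtain ⟨f, h1, h2, h3, h4⟩ := good_full hA (red_dbl hR) (full_dbl hR.sub)
  have hadj : ∀ {u v : V}, G.Adj u v → (dbl G).Adj (u, true) (v, true) :=
    fun h => Or.inl ⟨rfl, h⟩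
  refine ⟨fun v => f (v, true), ?_, ?_, ?_, ?_⟩
  · exact fun u v h => h1 _ _ (hadj h)
  · exact fun u v w a b hne => h2 _ _ _ (hadj a) (hadj b) (by simpa using hne)
  · exact fun u v w a b hne => h3 _ _ _ (hadj a) (hadj b) (by simpa using hne)
  · exact fun u v w x a b c hne => h4 _ _ _ _ (hadj a) (hadj b) (hadj c) (by simpa using hne)

end doubling

end Pool.Agent.K9h7.CFS
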