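import Pool.Agent.K9h7.CFS.Stm

namespace Pool.Agent.K9h7.CFS

open Pool.Agent.H7X.CF

universe u

variable {V : Type u} {G : SimpleGraph V}

/-- Delete the edges at the vertices of `X`. -/
def del (G : SimpleGraph V) (X : V → Prop) : SimpleGraph V where
  Adj x y := G.Adj x y ∧ ¬ X x ∧ ¬ X y
  symm := ⟨fun _ _ h => ⟨h.1.symm, h.2.2, h.2.1⟩⟩
  loopless := ⟨fun _ h => G.loopless.irrefl _ h.1⟩

lemma del_adj {X : V → Prop} {x y : V} : (del G X).Adj x y ↔ G.Adj x y ∧ ¬ X x ∧ ¬ X y := Iff.rfl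

lemma sub_del (h : Sub G) (X : V → Prop) : Sub (del G X) :=
  fun v a b c d ha hb hc hd => h v a b c d ha.1 hb.1 hc.1 hd.1

lemma claw_del (h : Claw G) (X : V → Prop) : Claw (del G X) := by
  intro v x y z hx hy hz h1 h2 h3
  rcases h v x y z hx.1 hy.1 hz.1 h1 h2 h3 with h4 | h4 | h4
  · exact Or.inl ⟨h4, hx.2.2, hy.2.2⟩
  · exact Or.inr (Or.inl ⟨h4, hx.2.2, hz.2.2⟩)
  · exact Or.inr (Or.inr ⟨h4, hy.2.2, hz.2.2⟩)

lemma three (h : Sub G) {v x y z w : V} (hx : G.Adj v x) (hy : G.Adj v y) (hz : G.Adj v z)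
    (h1 : x ≠ y) (h2 : x ≠ z) (h3 : y ≠ z) (hw : G.Adj v w) : w = x ∨ w = y ∨ w = z := by
  have := h v x y z w hx hy hz hw
  grind

open Classical in
/-- A component can be coloured separately. -/
lemma comp {X : V → Prop} (hX : ∀ u w, X u → G.Adj u w → X w) {f : V → Fin 4}
    (hf : Good (del G X) f) (g : V → Fin 4)
    (hg : ∀ u v, X u → X v → u ≠ v → g u = g v → g u ≠ 2 ∧ g u ≠ 3 ∧ ¬ G.Adj u v) :
    ∃ f : V → Fin 4, Good G f := by
  obtain ⟨h1, h2, h3, h4⟩ := hf
  have hX' : ∀ u w, ¬ X u → G.Adj u w → ¬ X w := fun u w hu h hw => hu (hX w u hw h.symm)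
  let F : V → Fin 4 := fun v => if X v then g v else f v
  have FX : ∀ v, X v → F v = g v := fun v hv => by simp [F, hv]
  have FN : ∀ v, ¬ X v → F v = f v := fun v hv => by simp [F, hv]
  refine ⟨F, ?_, ?_, ?_, ?_⟩
  · intro u v huv he
    by_cases hu : X u
    · have hv := hX u v hu huv
      rw [FX u hu, FX v hv] at he
      exact (hg u v hu hv huv.ne he).2.2 huv
    · have hv := hX' u v hu huv
      rw [FN u hu, FN v hv] at he
      exact h1 u v ⟨huv, hu, hv⟩ he
  · intro u v w huv hvw hne e1 e2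
    by_cases hu : X u
    · have hv := hX u v hu huv
      have hw := hX v w hv hvw
      rw [FX u hu] at e1
      rw [FX w hw] at e2
      exact (hg u w hu hw hne (e1.trans e2.symm)).1 e1
    · have hv := hX' u v hu huv
      have hw := hX' v w hv hvw
      rw [FN u hu] at e1
      rw [FN w hw] at e2
      exact h2 u v w ⟨huv, hu, hv⟩ ⟨hvw, hv, hw⟩ hne e1 e2
  · intro u v w huv hvw hne e1 e2
    by_cases hu : X u
    · have hv := hX u v hu huv
      have hw := hX v w hv hvw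
      rw [FX u hu] at e1
      rw [FX w hw] at e2
      exact (hg u w hu hw hne (e1.trans e2.symm)).2.1 e1
    · have hv := hX' u v hu huv
      have hw := hX' v w hv hvw
      rw [FN u hu] at e1
      rw [FN w hw] at e2
      exact h3 u v w ⟨huv, hu, hv⟩ ⟨hvw, hv, hw⟩ hne e1 e2
  · intro u v w x huv hvw hwx hne e1 e2
    by_cases hu : X u
    · have hv := hX u v hu huv
      have hw := hX v w hv hvw
      have hx := hX w x hw hwx
      rw [FX u hu] at e1
      rw [FX x hx] at e2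
      exact (hg u x hu hx hne (e1.trans e2.symm)).2.1 e1
    · have hv := hX' u v hu huv
      have hw := hX' v w hv hvw
      have hx := hX' w x hw hwx
      rw [FN u hu] at e1
      rw [FN x hx] at e2
      exact h4 u v w x ⟨huv, hu, hv⟩ ⟨hvw, hv, hw⟩ ⟨hwx, hw, hx⟩ hne e1 e2

open Classical in
/-- A vertex of degree one. -/
lemma leaf {v u : V} (hv : ∀ w, G.Adj v w → w = u) {f : V → Fin 4}
    (hf : Good (del G fun x => x = v) f) : ∃ f : V → Fin 4, Good G f := by
  obtain ⟨h1, h2, h3, h4⟩ := hf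
  obtain ⟨c, hc, hcu⟩ : ∃ c : Fin 4, (c = 0 ∨ c = 1) ∧ c ≠ f u := by
    by_cases h : f u = 0
    · exact ⟨1, Or.inr rfl, by rw [h]; decide⟩
    · exact ⟨0, Or.inl rfl, fun h' => h h'.symm⟩
  have hc2 : c ≠ 2 := by rcases hc with rfl | rfl <;> decide
  have hc3 : c ≠ 3 := by rcases hc with rfl | rfl <;> decide
  have hv' : ∀ w, G.Adj w v → w = u := fun w h => hv w h.symm
  let F : V → Fin 4 := fun x => if x = v then c else f x
  have Fv : F v = c := by simp [F]
  have FN : ∀ x, x ≠ v → F x = f x := fun x hx => by simp [F, hx]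
  have F2 : ∀ x, F x = 2 → x ≠ v := by
    rintro x hx rfl
    exact hc2 (Fv ▸ hx)
  have F3 : ∀ x, F x = 3 → x ≠ v := by
    rintro x hx rfl
    exact hc3 (Fv ▸ hx)
  refine ⟨F, ?_, ?_, ?_, ?_⟩
  · intro x y hxy he
    by_cases hx : x = v
    · subst hx
      have hy := hv y hxy
      subst hy
      rw [Fv, FN y hxy.ne'] at he
      exact hcu he
    · by_cases hy : y = v
      · subst hy
        have hx' := hv' x hxy
        subst hx'
        rw [Fv, FN x hx] at he
        exact hcu he.symm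
      · rw [FN x hx, FN y hy] at he
        exact h1 x y ⟨hxy, hx, hy⟩ he
  · intro x y z hxy hyz hne e1 e2
    have hx := F2 x e1
    have hz := F2 z e2
    by_cases hy : y = v
    · subst hy
      exact hne ((hv' x hxy).trans (hv z hyz).symm)
    · rw [FN x hx] at e1
      rw [FN z hz] at e2
      exact h2 x y z ⟨hxy, hx, hy⟩ ⟨hyz, hy, hz⟩ hne e1 e2
  · intro x y z hxy hyz hne e1 e2
    have hx := F3 x e1
    have hz := F3 z e2
    by_cases hy : y = v
    · subst hy
      exact hne ((hv' x hxy).trans (hv z hyz).symm)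
    · rw [FN x hx] at e1
      rw [FN z hz] at e2
      exact h3 x y z ⟨hxy, hx, hy⟩ ⟨hyz, hy, hz⟩ hne e1 e2
  · intro x y z t hxy hyz hzt hne e1 e2
    have hx := F3 x e1
    have ht := F3 t e2
    rw [FN x hx] at e1
    rw [FN t ht] at e2
    by_cases hy : y = v
    · subst hy
      have : x = z := (hv' x hxy).trans (hv z hyz).symm
      subst this
      exact h1 x t ⟨hzt, hx, ht⟩ (e1.trans e2.symm)
    · by_cases hz : z = v
      · subst hz
        have : y = t := (hv' y hyz).trans (hv t hzt).symm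
        subst this
        exact h1 x y ⟨hxy, hx, hy⟩ (e1.trans e2.symm)
      · exact h4 x y z t ⟨hxy, hx, hy⟩ ⟨hyz, hy, hz⟩ ⟨hzt, hz, ht⟩ hne e1 e2

/-- The contraction of a path `a v₁ v₂ b`. -/
def ctr (G : SimpleGraph V) (a v₁ v₂ b : V) (hab : a ≠ b) : SimpleGraph V where
  Adj x y := (G.Adj x y ∧ x ≠ v₁ ∧ x ≠ v₂ ∧ y ≠ v₁ ∧ y ≠ v₂) ∨ (x = a ∧ y = b) ∨ (x = b ∧ y = a)
  symm := ⟨by
    rintro x y (⟨h1, h2, h3, h4, h5⟩ | ⟨rfl, rfl⟩ | ⟨rfl, rfl⟩)
    · exact Or.inl ⟨h1.symm, h4, h5, h2, h3⟩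
    · exact Or.inr (Or.inr ⟨rfl, rfl⟩)
    · exact Or.inr (Or.inl ⟨rfl, rfl⟩)⟩
  loopless := ⟨by
    rintro x (⟨h1, -⟩ | ⟨rfl, h⟩ | ⟨rfl, h⟩)
    · exact G.loopless.irrefl _ h1
    · exact hab h
    · exact hab h.symm⟩

lemma sub_ctr (hS : Sub G) {a v₁ v₂ b : V} (hab : a ≠ b)
    (h1 : G.Adj a v₁) (h2 : G.Adj b v₂) : Sub (ctr G a v₁ v₂ b hab) := by
  intro x c1 c2 c3 c4 k1 k2 k3 k4
  have main : ∀ a v b : V, G.Adj a v → ∀ c1 c2 c3 c4 : V,
      ((G.Adj a c1 ∧ c1 ≠ v) ∨ c1 = b) → ((G.Adj a c2 ∧ c2 ≠ v) ∨ c2 = b) →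
      ((G.Adj a c3 ∧ c3 ≠ v) ∨ c3 = b) → ((G.Adj a c4 ∧ c4 ≠ v) ∨ c4 = b) →
      c1 = c2 ∨ c1 = c3 ∨ c1 = c4 ∨ c2 = c3 ∨ c2 = c4 ∨ c3 = c4 := by
    intro a v b hav c1 c2 c3 c4 g1 g2 g3 g4
    rcases g1 with ⟨g1, g1'⟩ | rfl
    · rcases g2 with ⟨g2, g2'⟩ | rfl
      · rcases g3 with ⟨g3, g3'⟩ | rfl
        · rcases g4 with ⟨g4, g4'⟩ | rfl
          · exact hS a c1 c2 c3 c4 g1 g2 g3 g4
          · have := hS a c1 c2 c3 v g1 g2 g3 hav
            tauto
        · rcases g4 with ⟨g4, g4'⟩ | rfl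
          · have := hS a c1 c2 v c4 g1 g2 hav g4
            have : v ≠ c4 := g4'.symm
            tauto
          · tauto
      · rcases g3 with ⟨g3, g3'⟩ | rfl
        · rcases g4 with ⟨g4, g4'⟩ | rfl
          · have := hS a c1 v c3 c4 g1 hav g3 g4
            have : v ≠ c4 := g4'.symm
            have : v ≠ c3 := g3'.symm
            tauto
          · tauto
        · tauto
    · rcases g2 with ⟨g2, g2'⟩ | rfl
      · rcases g3 with ⟨g3, g3'⟩ | rfl
        · rcases g4 with ⟨g4, g4'⟩ | rfl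
          · have := hS a v c2 c3 c4 hav g2 g3 g4
            have : v ≠ c4 := g4'.symm
            have : v ≠ c3 := g3'.symm
            have : v ≠ c2 := g2'.symm
            tauto
          · tauto
        · tauto
      · tauto
  by_cases hxa : x = a
  · subst hxa
    have aux : ∀ c, (ctr G x v₁ v₂ b hab).Adj x c → ((G.Adj x c ∧ c ≠ v₁) ∨ c = b) := by
      rintro c (⟨g1, -, -, g2, -⟩ | ⟨-, g⟩ | ⟨g, -⟩)
      · exact Or.inl ⟨g1, g2⟩
      · exact Or.inr g
      · exact absurd g hab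
    exact main x v₁ b h1 c1 c2 c3 c4 (aux _ k1) (aux _ k2) (aux _ k3) (aux _ k4)
  · by_cases hxb : x = b
    · subst hxb
      have aux : ∀ c, (ctr G a v₁ v₂ x hab).Adj x c → ((G.Adj x c ∧ c ≠ v₂) ∨ c = a) := by
        rintro c (⟨g1, -, -, -, g2⟩ | ⟨g, -⟩ | ⟨-, g⟩)
        · exact Or.inl ⟨g1, g2⟩
        · exact absurd g hxa
        · exact Or.inr g
      exact main x v₂ a h2 c1 c2 c3 c4 (aux _ k1) (aux _ k2) (aux _ k3) (aux _ k4)
    · have aux : ∀ c, (ctr G a v₁ v₂ b hab).Adj x c → G.Adj x c := by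
        rintro c (⟨g1, -⟩ | ⟨g, -⟩ | ⟨g, -⟩)
        · exact g1
        · exact absurd g hxa
        · exact absurd g hxb
      exact hS x c1 c2 c3 c4 (aux _ k1) (aux _ k2) (aux _ k3) (aux _ k4)

lemma claw_ctr (hC : Claw G) {a v₁ v₂ b : V} (hab : a ≠ b)
    (h1 : ∀ w, G.Adj v₁ w ↔ w = a ∨ w = v₂) (h2 : ∀ w, G.Adj v₂ w ↔ w = v₁ ∨ w = b) :
    Claw (ctr G a v₁ v₂ b hab) := by
  intro x p q r hp hq hr hpq hpr hqr
  have hav : G.Adj a v₁ := ((h1 a).2 (Or.inl rfl)).symm
  have hbv : G.Adj b v₂ := ((h2 b).2 (Or.inr rfl)).symm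
  -- general fact about an end
  have main : ∀ a v v' b : V, G.Adj a v → (∀ w, G.Adj v w → w = a ∨ w = v') → ∀ p q r : V,
      p ≠ q → p ≠ r → q ≠ r →
      ((G.Adj a p ∧ p ≠ v ∧ p ≠ v') ∨ p = b) → ((G.Adj a q ∧ q ≠ v ∧ q ≠ v') ∨ q = b) →
      ((G.Adj a r ∧ r ≠ v ∧ r ≠ v') ∨ r = b) →
      (G.Adj p q ∧ p ≠ v ∧ p ≠ v' ∧ q ≠ v ∧ q ≠ v') ∨
      (G.Adj p r ∧ p ≠ v ∧ p ≠ v' ∧ r ≠ v ∧ r ≠ v') ∨
      (G.Adj q r ∧ q ≠ v ∧ q ≠ v' ∧ r ≠ v ∧ r ≠ v') := by
    intro a v v' b hav hv p q r hpq hpr hqr gp gq gr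
    have two : ∀ s t, G.Adj a s → s ≠ v → s ≠ v' → G.Adj a t → t ≠ v → t ≠ v' → s ≠ t →
        G.Adj s t := by
      intro s t hs hs1 hs2 ht ht1 ht2 hst
      rcases hC a v s t hav hs ht hs1.symm ht1.symm hst with h | h | h
      · rcases hv s h with h | h
        · exact absurd (h ▸ hs) (G.loopless.irrefl _)
        · exact absurd h hs2
      · rcases hv t h with h | h
        · exact absurd (h ▸ ht) (G.loopless.irrefl _)
        · exact absurd h ht2
      · exact h
    rcases gp with ⟨g1, g2, g3⟩ | rfl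
    · rcases gq with ⟨g4, g5, g6⟩ | rfl
      · exact Or.inl ⟨two p q g1 g2 g3 g4 g5 g6 hpq, g2, g3, g5, g6⟩
      · rcases gr with ⟨g7, g8, g9⟩ | rfl
        · exact Or.inr (Or.inl ⟨two p r g1 g2 g3 g7 g8 g9 hpr, g2, g3, g8, g9⟩)
        · exact absurd rfl hqr
    · rcases gq with ⟨g4, g5, g6⟩ | rfl
      · rcases gr with ⟨g7, g8, g9⟩ | rfl
        · exact Or.inr (Or.inr ⟨two q r g4 g5 g6 g7 g8 g9 hqr, g5, g6, g8, g9⟩)
        · exact absurd rfl hpr
      · exact absurd rfl hpq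
  by_cases hxa : x = a
  · subst hxa
    have aux : ∀ c, (ctr G x v₁ v₂ b hab).Adj x c →
        ((G.Adj x c ∧ c ≠ v₁ ∧ c ≠ v₂) ∨ c = b) := by
      rintro c (⟨g1, -, -, g2, g3⟩ | ⟨-, g⟩ | ⟨g, -⟩)
      · exact Or.inl ⟨g1, g2, g3⟩
      · exact Or.inr g
      · exact absurd g hab
    rcases main x v₁ v₂ b hav (fun w hw => (h1 w).1 hw) p q r hpq hpr hqr (aux _ hp) (aux _ hq)
      (aux _ hr) with h | h | h
    · exact Or.inl (Or.inl h)
    · exact Or.inr (Or.inl (Or.inl h))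
    · exact Or.inr (Or.inr (Or.inl h))
  · by_cases hxb : x = b
    · subst hxb
      have aux : ∀ c, (ctr G a v₁ v₂ x hab).Adj x c →
          ((G.Adj x c ∧ c ≠ v₂ ∧ c ≠ v₁) ∨ c = a) := by
        rintro c (⟨g1, -, -, g2, g3⟩ | ⟨g, -⟩ | ⟨-, g⟩)
        · exact Or.inl ⟨g1, g3, g2⟩
        · exact absurd g hxa
        · exact Or.inr g
      rcases main x v₂ v₁ a hbv (fun w hw => ((h2 w).1 hw).symm) p q r hpq hpr hqr (aux _ hp)
        (aux _ hq) (aux _ hr) with h | h | h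
      · exact Or.inl (Or.inl ⟨h.1, h.2.2.1, h.2.1, h.2.2.2.2, h.2.2.2.1⟩)
      · exact Or.inr (Or.inl (Or.inl ⟨h.1, h.2.2.1, h.2.1, h.2.2.2.2, h.2.2.2.1⟩))
      · exact Or.inr (Or.inr (Or.inl ⟨h.1, h.2.2.1, h.2.1, h.2.2.2.2, h.2.2.2.1⟩))
    · have aux : ∀ c, (ctr G a v₁ v₂ b hab).Adj x c → G.Adj x c ∧ c ≠ v₁ ∧ c ≠ v₂ := by
        rintro c (⟨g1, -, -, g2, g3⟩ | ⟨g, -⟩ | ⟨g, -⟩)
        · exact ⟨g1, g2, g3⟩
        · exact absurd g hxa
        · exact absurd g hxb
      obtain ⟨p1, p2, p3⟩ := aux _ hp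
      obtain ⟨q1, q2, q3⟩ := aux _ hq
      obtain ⟨r1, r2, r3⟩ := aux _ hr
      rcases hC x p q r p1 q1 r1 hpq hpr hqr with h | h | h
      · exact Or.inl (Or.inl ⟨h, p2, p3, q2, q3⟩)
      · exact Or.inr (Or.inl (Or.inl ⟨h, p2, p3, r2, r3⟩))
      · exact Or.inr (Or.inr (Or.inl ⟨h, q2, q3, r2, r3⟩))

open Classical in
/-- Two adjacent vertices of degree two. -/
lemma path2 {a v₁ v₂ b : V} (hab : a ≠ b) (hav2 : a ≠ v₂) (hbv1 : b ≠ v₁)
    (h1 : ∀ w, G.Adj v₁ w ↔ w = a ∨ w = v₂)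
    (h2 : ∀ w, G.Adj v₂ w ↔ w = v₁ ∨ w = b) {f : V → Fin 4}
    (hf : Good (ctr G a v₁ v₂ b hab) f) : ∃ f : V → Fin 4, Good G f := by
  obtain ⟨g1, g2, g3, g4⟩ := hf
  have hav : G.Adj v₁ a := (h1 a).2 (Or.inl rfl)
  have hbv : G.Adj v₂ b := (h2 b).2 (Or.inr rfl)
  have h12 : G.Adj v₁ v₂ := (h1 v₂).2 (Or.inr rfl)
  have hav1 : a ≠ v₁ := hav.ne'
  have hbv2 : b ≠ v₂ := hbv.ne'
  have hne : v₁ ≠ v₂ := h12.ne
  have hfab : f a ≠ f b := g1 a b (Or.inr (Or.inl ⟨rfl, rfl⟩))
  obtain ⟨c₁, c₂, hc₁, hc₂, hc, hca, hcb⟩ : ∃ c₁ c₂ : Fin 4, (c₁ = 0 ∨ c₁ = 1) ∧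
      (c₂ = 0 ∨ c₂ = 1) ∧ c₁ ≠ c₂ ∧ c₁ ≠ f a ∧ c₂ ≠ f b := by
    generalize f a = x at hfab ⊢
    generalize f b = y at hfab ⊢
    revert x y
    decide
  have k1 : c₁ ≠ 2 ∧ c₁ ≠ 3 := by rcases hc₁ with rfl | rfl <;> decide
  have k2 : c₂ ≠ 2 ∧ c₂ ≠ 3 := by rcases hc₂ with rfl | rfl <;> decide
  let F : V → Fin 4 := fun x => if x = v₁ then c₁ else if x = v₂ then c₂ else f x
  have F1 : F v₁ = c₁ := by simp [F]
  have F2 : F v₂ = c₂ := by simp [F, hne.symm]
  have FN : ∀ x, x ≠ v₁ → x ≠ v₂ → F x = f x := fun x hx hx' => by simp [F, hx, hx']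
  have F23 : ∀ x, F x = 2 ∨ F x = 3 → x ≠ v₁ ∧ x ≠ v₂ := by
    intro x hx
    refine ⟨?_, ?_⟩
    · rintro rfl
      rw [F1] at hx
      exact hx.elim k1.1 k1.2
    · rintro rfl
      rw [F2] at hx
      exact hx.elim k2.1 k2.2
  have v1' : ∀ w, G.Adj w v₁ → w = a ∨ w = v₂ := fun w h => (h1 w).1 h.symm
  have v2' : ∀ w, G.Adj w v₂ → w = v₁ ∨ w = b := fun w h => (h2 w).1 h.symm
  have adj' : ∀ x y, G.Adj x y → x ≠ v₁ → x ≠ v₂ → y ≠ v₁ → y ≠ v₂ →
      (ctr G a v₁ v₂ b hab).Adj x y := fun x y h a1 a2 a3 a4 => Or.inl ⟨h, a1, a2, a3, a4⟩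
  have two : ∀ x y z, G.Adj x y → G.Adj y z → x ≠ z → x ≠ v₁ → x ≠ v₂ → z ≠ v₁ → z ≠ v₂ →
      y ≠ v₁ ∧ y ≠ v₂ := by
    intro x y z hxy hyz hne' a1 a2 a3 a4
    refine ⟨?_, ?_⟩
    · rintro rfl
      rcases v1' x hxy with h | h
      · rcases (h1 z).1 hyz with h' | h'
        · exact hne' (h.trans h'.symm)
        · exact a4 h'
      · exact a2 h
    · rintro rfl
      rcases v2' x hxy with h | h
      · exact a1 h
      · rcases (h2 z).1 hyz with h' | h'
        · exact a3 h'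
        · exact hne' (h.trans h'.symm)
  refine ⟨F, ?_, ?_, ?_, ?_⟩
  · intro x y hxy he
    by_cases hx1 : x = v₁
    · subst hx1
      rcases (h1 y).1 hxy with rfl | rfl
      · rw [F1, FN y hav1 hav2] at he
        exact hca he
      · rw [F1, F2] at he
        exact hc he
    · by_cases hx2 : x = v₂
      · subst hx2
        rcases (h2 y).1 hxy with rfl | rfl
        · rw [F1, F2] at he
          exact hc he.symm
        · rw [F2, FN y hbv1 hbv2] at he
          exact hcb he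
      · by_cases hy1 : y = v₁
        · subst hy1
          rcases v1' x hxy with rfl | rfl
          · rw [F1, FN x hav1 hav2] at he
            exact hca he.symm
          · exact hx2 rfl
        · by_cases hy2 : y = v₂
          · subst hy2
            rcases v2' x hxy with rfl | rfl
            · exact hx1 rfl
            · rw [F2, FN x hbv1 hbv2] at he
              exact hcb he.symm
          · rw [FN x hx1 hx2, FN y hy1 hy2] at he
            exact g1 x y (adj' x y hxy hx1 hx2 hy1 hy2) he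
  · intro x y z hxy hyz hne' e1 e2
    obtain ⟨a1, a2⟩ := F23 x (Or.inl e1)
    obtain ⟨a3, a4⟩ := F23 z (Or.inl e2)
    obtain ⟨a5, a6⟩ := two x y z hxy hyz hne' a1 a2 a3 a4
    rw [FN x a1 a2] at e1
    rw [FN z a3 a4] at e2
    exact g2 x y z (adj' x y hxy a1 a2 a5 a6) (adj' y z hyz a5 a6 a3 a4) hne' e1 e2
  · intro x y z hxy hyz hne' e1 e2
    obtain ⟨a1, a2⟩ := F23 x (Or.inr e1)
    obtain ⟨a3, a4⟩ := F23 z (Or.inr e2)
    obtain ⟨a5, a6⟩ := two x y z hxy hyz hne' a1 a2 a3 a4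
    rw [FN x a1 a2] at e1
    rw [FN z a3 a4] at e2
    exact g3 x y z (adj' x y hxy a1 a2 a5 a6) (adj' y z hyz a5 a6 a3 a4) hne' e1 e2
  · intro x y z t hxy hyz hzt hne' e1 e2
    obtain ⟨a1, a2⟩ := F23 x (Or.inr e1)
    obtain ⟨a3, a4⟩ := F23 t (Or.inr e2)
    rw [FN x a1 a2] at e1
    rw [FN t a3 a4] at e2
    have hxt : ¬ (ctr G a v₁ v₂ b hab).Adj x t := fun h => g1 x t h (e1.trans e2.symm)
    by_cases hy1 : y = v₁
    · subst hy1
      rcases v1' x hxy with h | h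
      · rcases (h1 z).1 hyz with h' | h'
        · rw [h', ← h] at hzt
          exact hxt (adj' x t hzt a1 a2 a3 a4)
        · rw [h'] at hzt
          rcases (h2 t).1 hzt with h'' | h''
          · exact a3 h''
          · exact hxt (Or.inr (Or.inl ⟨h, h''⟩))
      · exact a2 h
    · by_cases hy2 : y = v₂
      · subst hy2
        rcases v2' x hxy with h | h
        · exact a1 h
        · rcases (h2 z).1 hyz with h' | h'
          · rw [h'] at hzt
            rcases (h1 t).1 hzt with h'' | h''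
            · exact hxt (Or.inr (Or.inr ⟨h, h''⟩))
            · exact a4 h''
          · rw [h', ← h] at hzt
            exact hxt (adj' x t hzt a1 a2 a3 a4)
      · by_cases hz1 : z = v₁
        · subst hz1
          rcases (h1 t).1 hzt with h | h
          · rcases v1' y hyz with h' | h'
            · rw [h', ← h] at hxy
              exact hxt (adj' x t hxy a1 a2 a3 a4)
            · exact hy2 h'
          · exact a4 h
        · by_cases hz2 : z = v₂
          · subst hz2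
            rcases (h2 t).1 hzt with h | h
            · exact a3 h
            · rcases v2' y hyz with h' | h'
              · exact hy1 h'
              · rw [h', ← h] at hxy
                exact hxt (adj' x t hxy a1 a2 a3 a4)
          · exact g4 x y z t (adj' x y hxy a1 a2 hy1 hy2) (adj' y z hyz hy1 hy2 hz1 hz2)
              (adj' z t hzt hz1 hz2 a3 a4) hne' e1 e2

open Classical in
/-- The number of vertices which are not isolated. -/
noncomputable def ms [Fintype V] (G : SimpleGraph V) : ℕ :=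
  (Finset.univ.filter fun v => ∃ w, G.Adj v w).card

lemma ms_lt [Fintype V] {G G' : SimpleGraph V} (h : ∀ v w, G'.Adj v w → ∃ w', G.Adj v w')
    {v w : V} (hv : G.Adj v w) (hv' : ∀ w, ¬ G'.Adj v w) : ms G' < ms G := by
  classical
  unfold ms
  apply Finset.card_lt_card
  rw [Finset.ssubset_iff_of_subset]
  · refine ⟨v, Finset.mem_filter.2 ⟨Finset.mem_univ _, w, hv⟩, ?_⟩
    rw [Finset.mem_filter]
    rintro ⟨-, w, hw⟩
    exact hv' w hw
  · intro x hx
    obtain ⟨-, y, hy⟩ := Finset.mem_filter.1 hx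
    exact Finset.mem_filter.2 ⟨Finset.mem_univ _, h x y hy⟩

lemma main_ind (hred : S_red.{u}) [Fintype V] (n : ℕ) : ∀ G : SimpleGraph V, Sub G → Claw G →
    ms G ≤ n → ∃ f : V → Fin 4, Good G f := by
  classical
  induction n with
  | zero =>
    intro G hS hC hn
    have hno : ∀ v w, ¬ G.Adj v w := by
      intro v w h
      have : 0 < ms G := Finset.card_pos.2 ⟨v, Finset.mem_filter.2 ⟨Finset.mem_univ _, w, h⟩⟩
      omega
    exact ⟨fun _ => 0, fun u v h => absurd h (hno _ _), fun u v w h => absurd h (hno _ _),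
      fun u v w h => absurd h (hno _ _), fun u v w x h => absurd h (hno _ _)⟩
  | succ n ih =>
    intro G hS hC hn
    -- (R1)
    by_cases r1 : ∃ v u, G.Adj v u ∧ ∀ w, G.Adj v w → w = u
    · obtain ⟨v, u, huv, hv⟩ := r1
      have hlt : ms (del G fun x => x = v) < ms G :=
        ms_lt (fun x y h => ⟨y, h.1⟩) huv (fun w h => h.2.1 rfl)
      obtain ⟨f, hf⟩ := ih (del G fun x => x = v) (sub_del hS _) (claw_del hC _) (by omega)
      exact leaf hv hf
    push Not at r1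
    -- (R2)
    by_cases r2 : ∃ a v₁ v₂ b, a ≠ b ∧ a ≠ v₂ ∧ b ≠ v₁ ∧ (∀ w, G.Adj v₁ w ↔ w = a ∨ w = v₂) ∧
        (∀ w, G.Adj v₂ w ↔ w = v₁ ∨ w = b)
    · obtain ⟨a, v₁, v₂, b, hab, hav2, hbv1, h1, h2⟩ := r2
      have ha : G.Adj v₁ a := (h1 a).2 (Or.inl rfl)
      have hb : G.Adj v₂ b := (h2 b).2 (Or.inr rfl)
      have hlt : ms (ctr G a v₁ v₂ b hab) < ms G := by
        refine ms_lt ?_ ha ?_
        · rintro x y (⟨h, -⟩ | ⟨rfl, -⟩ | ⟨rfl, -⟩)
          · exact ⟨y, h⟩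
          · exact ⟨v₁, ha.symm⟩
          · exact ⟨v₂, hb.symm⟩
        · rintro w (⟨-, h, -⟩ | ⟨h, -⟩ | ⟨h, -⟩)
          · exact h rfl
          · exact ha.ne h
          · exact hbv1 h.symm
      obtain ⟨f, hf⟩ := ih _ (sub_ctr hS hab ha.symm hb.symm) (claw_ctr hC hab h1 h2) (by omega)
      exact path2 hab hav2 hbv1 h1 h2 hf
    -- (R3)
    by_cases r3 : ∃ v x y z, G.Adj v x ∧ G.Adj v y ∧ G.Adj v z ∧ G.Adj x y ∧ G.Adj x z ∧ G.Adj y z
    · obtain ⟨v, x, y, z, h1, h2, h3, h4, h5, h6⟩ := r3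
      let X : V → Prop := fun w => w = v ∨ w = x ∨ w = y ∨ w = z
      have hX : ∀ u w, X u → G.Adj u w → X w := by
        rintro u w (rfl | rfl | rfl | rfl) huw
        · have := three hS h1 h2 h3 h4.ne h5.ne h6.ne huw
          tauto
        · have := three hS h1.symm h4 h5 h2.ne h3.ne h6.ne huw
          tauto
        · have := three hS h2.symm h4.symm h6 h1.ne h3.ne h5.ne huw
          tauto
        · have := three hS h3.symm h5.symm h6.symm h1.ne h2.ne h4.ne huw
          tauto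
      have hlt : ms (del G X) < ms G :=
        ms_lt (fun x y h => ⟨y, h.1⟩) h1 (fun w h => h.2.1 (Or.inl rfl))
      obtain ⟨f, hf⟩ := ih (del G X) (sub_del hS _) (claw_del hC _) (by omega)
      refine comp hX hf (fun w => if w = v then 0 else if w = x then 1 else if w = y then 2 else 3)
        ?_
      have e1 := h1.ne'
      have e2 := h2.ne'
      have e3 := h3.ne'
      have e4 := h4.ne'
      have e5 := h5.ne'
      have e6 := h6.ne'
      rintro a b (rfl | rfl | rfl | rfl) (rfl | rfl | rfl | rfl) hne heq <;>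
        simp_all
    -- (R4)
    by_cases r4 : ∃ v a b x x', a ≠ b ∧ x ≠ v ∧ (∀ w, G.Adj v w ↔ w = a ∨ w = b) ∧ G.Adj a x ∧
        G.Adj b x ∧ G.Adj a x' ∧ G.Adj b x' ∧ G.Adj x x' ∧ x' ≠ v ∧ ¬ G.Adj a b
    · obtain ⟨v, a, b, x, x', hab, hxv, hv, h1, h2, h3, h4, h5, hx'v, hnab⟩ := r4
      have ha : G.Adj v a := (hv a).2 (Or.inl rfl)
      have hb : G.Adj v b := (hv b).2 (Or.inr rfl)
      let X : V → Prop := fun w => w = v ∨ w = a ∨ w = b ∨ w = x ∨ w = x'
      have hX : ∀ u w, X u → G.Adj u w → X w := by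
        rintro u w (rfl | rfl | rfl | rfl | rfl) huw
        · have := (hv w).1 huw
          tauto
        · have := three hS ha.symm h1 h3 hxv.symm hx'v.symm h5.ne huw
          tauto
        · have := three hS hb.symm h2 h4 hxv.symm hx'v.symm h5.ne huw
          tauto
        · have := three hS h1.symm h2.symm h5 hab h3.ne h4.ne huw
          tauto
        · have := three hS h3.symm h4.symm h5.symm hab h1.ne h2.ne huw
          tauto
      have hlt : ms (del G X) < ms G :=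
        ms_lt (fun x y h => ⟨y, h.1⟩) ha (fun w h => h.2.1 (Or.inl rfl))
      obtain ⟨f, hf⟩ := ih (del G X) (sub_del hS _) (claw_del hC _) (by omega)
      have e1 := ha.ne'
      have e2 := hb.ne'
      have e3 := h1.ne'
      have e4 := h2.ne'
      have e5 := h3.ne'
      have e6 := h4.ne'
      have e7 := h5.ne'
      have e8 := hab.symm
      have e9 : ¬ G.Adj b a := fun h => hnab h.symm
      obtain ⟨g, gv, ga, gb, gx, gx'⟩ : ∃ g : V → Fin 4, g v = 1 ∧ g a = 0 ∧ g b = 0 ∧ g x = 2 ∧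
          g x' = 3 := by
        refine ⟨fun w => if w = v then 1 else if w = a then 0 else if w = b then 0 else
          if w = x then 2 else 3, ?_, ?_, ?_, ?_, ?_⟩
        · simp
        · simp [e1]
        · simp [e2]
        · simp [hxv, e3, e4]
        · simp [hx'v, e5, e6, e7]
      refine comp hX hf g ?_
      intro p q hp hq hne heq
      rcases hp with hp | hp | hp | hp | hp <;> rcases hq with hq | hq | hq | hq | hq <;>
        rw [hp, hq] at hne heq <;> rw [hp] <;>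
        first
        | exact absurd rfl hne
        | (exfalso; simp only [gv, ga, gb, gx, gx'] at heq; exact absurd heq (by decide))
        | exact ⟨by rw [ga]; decide, by rw [ga]; decide, by rw [hq]; exact hnab⟩
        | exact ⟨by rw [gb]; decide, by rw [gb]; decide, by rw [hq]; exact e9⟩
    -- reduced
    apply hred V G
    have deg2 : ∀ v u, ¬ T G v → G.Adj v u → ∃ w, w ≠ u ∧ ∀ t, G.Adj v t ↔ t = u ∨ t = w := by
      intro v u hv huv
      obtain ⟨w, hw, hwu⟩ := r1 v u huv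
      refine ⟨w, hwu, fun t => ⟨fun ht => ?_, ?_⟩⟩
      · by_contra hcon
        push Not at hcon
        apply hv
        rcases hC v u w t huv hw ht hwu.symm hcon.1.symm hcon.2.symm with h | h | h
        · exact ⟨u, w, huv, hw, h⟩
        · exact ⟨u, t, huv, ht, h⟩
        · exact ⟨w, t, hw, ht, h⟩
      · rintro (rfl | rfl)
        · exact huv
        · exact hw
    have hTn : ∀ v u, ¬ T G v → G.Adj v u → T G u := by
      intro v u hv huv
      by_contra hu
      obtain ⟨b, hbu, hvn⟩ := deg2 v u hv huv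
      obtain ⟨a, hav, hun⟩ := deg2 u v hu huv.symm
      have hvb : G.Adj v b := (hvn b).2 (Or.inr rfl)
      have hua : G.Adj u a := (hun a).2 (Or.inr rfl)
      apply r2
      refine ⟨a, u, v, b, ?_, hav, hbu, fun w => ?_, fun w => ?_⟩
      · rintro rfl
        exact hv ⟨u, a, huv, hvb, hua⟩
      · rw [hun w]
        tauto
      · rw [hvn w]
    refine ⟨hS, hC, ?_, ?_⟩
    · intro v x y z h1 h2 h3 h4 h5 h6
      exact r3 ⟨v, x, y, z, h1, h2, h3, h4, h5, h6⟩
    · intro v hv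
      by_cases hiso : ∀ w, ¬ G.Adj v w
      · exact Or.inl hiso
      right
      push Not at hiso
      obtain ⟨a, hva⟩ := hiso
      obtain ⟨b, hba, hvn⟩ := deg2 v a hv hva
      have hvb : G.Adj v b := (hvn b).2 (Or.inr rfl)
      have hnab : ¬ G.Adj a b := fun h => hv ⟨a, b, hva, hvb, h⟩
      have hTa := hTn v a hv hva
      have hTb := hTn v b hv hvb
      refine ⟨a, b, hba.symm, hvn, hTa, hTb, ?_⟩
      intro x hax hbx
      by_contra hxv
      -- the triangle at `a` contains `x`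
      have tri : ∀ a, G.Adj v a → G.Adj a x → T G a →
          ∃ x', G.Adj a x' ∧ G.Adj x x' ∧ x' ≠ v ∧ x' ≠ x := by
        rintro a hva hax ⟨p, q, hp, hq, hpq⟩
        have hvp : p ≠ v := by
          rintro rfl
          exact hv ⟨a, q, hva, hpq, hq⟩
        have hvq : q ≠ v := by
          rintro rfl
          exact hv ⟨a, p, hva, hpq.symm, hp⟩
        by_cases hpx : p = x
        · subst hpx
          exact ⟨q, hq, hpq, hvq, hpq.ne'⟩
        · by_cases hqx : q = x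
          · subst hqx
            exact ⟨p, hp, hpq.symm, hvp, hpx⟩
          · exfalso
            have := three hS hva.symm hp hq hvp.symm hvq.symm hpq.ne hax
            rcases this with h | h | h
            · exact hxv h
            · exact hpx h.symm
            · exact hqx h.symm
      obtain ⟨x1, k1, k2, k3, k4⟩ := tri a hva hax hTa
      obtain ⟨x2, l1, l2, l3, l4⟩ := tri b hvb hbx hTb
      have hx1b : x1 ≠ b := by
        rintro rfl
        exact hnab k1
      have hx2a : x2 ≠ a := by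
        rintro rfl
        exact hnab l1.symm
      have h12 : x2 = x1 := by
        rcases three hS hax.symm hbx.symm k2 hba.symm k1.ne hx1b.symm l2 with h | h | h
        · exact absurd h hx2a
        · exact absurd h l1.ne'
        · exact h
      subst h12
      exact r4 ⟨v, a, b, x, x2, hba.symm, hxv, hvn, hax, hbx, k1, l1, k2, k3, hnab⟩

/-- Leaf (B2). -/
theorem B2 (hred : S_red.{u}) : S_sub.{u} := by
  intro V _ G hS hC
  have : Fintype V := Fintype.ofFinite V
  exact main_ind hred (ms G) G hS hC le_rfl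

end Pool.Agent.K9h7.CFS
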