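import Pool.Agent.K9h7.CFS.Stm

namespace Pool.Agent.K9h7.CFS

open Pool.Agent.H7X.CF

universe u

variable {V : Type u} {G : SimpleGraph V}

/-- The starting configuration. -/
theorem config [Finite V] (hG : CF G) :
    ∃ (D Cd : V → Prop) (K : Quotient (st hG) → Prop) (q : Quotient (st hG) → V),
      (∀ N, Quotient.mk (st hG) (q N) = N) ∧
      (∀ u v, G.Adj u v → D u → D v → False) ∧
      (∀ u v w, G.Adj u v → G.Adj v w → u ≠ w → D u → D w → False) ∧
      (∀ u v w x, G.Adj u v → G.Adj v w → G.Adj w x → u ≠ x → D u → D x → False) ∧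
      (∀ N, K N → ∀ v, Quotient.mk (st hG) v = N → ¬ Mid G v) ∧
      (∀ v, Cd v → Mid G v) ∧
      (∀ u v, Cd u → Cd v → Quotient.mk (st hG) u = Quotient.mk (st hG) v → u = v) ∧
      (∀ N, K N → ∀ w, Ex G (q N) w → ¬ K (Quotient.mk (st hG) w) ∧
        ∀ x, Quotient.mk (st hG) x = Quotient.mk (st hG) w → ¬ Cd x) ∧
      (∀ N, ¬ K N → (∀ v, Quotient.mk (st hG) v = N → ¬ Mid G v) →
        ∃ v, Quotient.mk (st hG) v = N ∧ D v) ∧
      (∀ u v, Ex G u v → (∀ x, Quotient.mk (st hG) x = Quotient.mk (st hG) u → ¬ Mid G x) →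
        (∀ x, Quotient.mk (st hG) x = Quotient.mk (st hG) v → ¬ Mid G x) →
        K (Quotient.mk (st hG) u) ∨ K (Quotient.mk (st hG) v)) ∧
      (∀ S : Finset V,
        (∀ v ∈ S, ¬ D v ∧ ¬ Cd v ∧ (K (Quotient.mk (st hG) v) → v ≠ q (Quotient.mk (st hG) v))) →
        (∀ v ∈ S, ∃ x ∈ S, ∃ y ∈ S, x ≠ y ∧ G.Adj v x ∧ G.Adj v y) →
        ∀ v ∈ S, ∀ x, Quotient.mk (st hG) x = Quotient.mk (st hG) v → ¬ Mid G x) := by
  classical
  have : Fintype V := Fintype.ofFinite V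
  have : Fintype (Quotient (st hG)) := Fintype.ofFinite _
  let U := Quotient (st hG)
  let π : V → U := Quotient.mk (st hG)
  have hπ : ∀ u v, π u = π v ↔ R G u v := fun u v => Quotient.eq (r := st hG)
  have hsur : ∀ N : U, ∃ v, π v = N := fun N => Quotient.exists_rep N
  have hin : ∀ u v, In G u v → π u = π v := fun u v h => (hπ u v).2 (Or.inr (Or.inl h))
  have hex : ∀ u v, Ex G u v → π u ≠ π v := fun u v h h' => not_R_ex ((hπ u v).1 h') h
  let AU : U → U → Prop := fun N M => ∃ u v, π u = N ∧ π v = M ∧ Ex G u v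
  have hAU : ∀ N M, AU N M → AU M N := by
    rintro N M ⟨u, v, h1, h2, h3⟩
    exact ⟨v, u, h2, h1, h3.symm⟩
  let Dm : U → Prop := fun N => ∃ v, π v = N ∧ Mid G v
  obtain ⟨DQ, hDQ1, hDQ2, hDQ3⟩ := exists_maxInd (Finset.univ.filter Dm) AU hAU
  obtain ⟨UT, hUT1, hUT2, hUT3⟩ :=
    exists_maxInd (Finset.univ.filter fun N => ¬ Dm N ∧ ∀ M ∈ DQ, ¬ AU N M) AU hAU
  have hDQ1' : ∀ N ∈ DQ, Dm N := fun N hN => (Finset.mem_filter.1 (hDQ1 hN)).2
  have hUT1' : ∀ N ∈ UT, ¬ Dm N ∧ ∀ M ∈ DQ, ¬ AU N M :=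
    fun N hN => (Finset.mem_filter.1 (hUT1 hN)).2
  have hDQ3' : ∀ N, Dm N → N ∉ DQ → ∃ M ∈ DQ, AU N M :=
    fun N hN h => hDQ3 N (Finset.mem_filter.2 ⟨Finset.mem_univ _, hN⟩) h
  have hUT3' : ∀ N, ¬ Dm N → N ∉ UT → ∃ u w, π u = N ∧ (π w ∈ DQ ∨ π w ∈ UT) ∧ Ex G u w := by
    intro N hN h
    by_cases h2 : ∀ M ∈ DQ, ¬ AU N M
    · obtain ⟨M, hM, u, w, h3, h4, h5⟩ :=
        hUT3 N (Finset.mem_filter.2 ⟨Finset.mem_univ _, hN, h2⟩) h
      exact ⟨u, w, h3, Or.inr (h4 ▸ hM), h5⟩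
    · push Not at h2
      obtain ⟨M, hM, u, w, h3, h4, h5⟩ := h2
      exact ⟨u, w, h3, Or.inl (h4 ▸ hM), h5⟩
  obtain ⟨p, hp1, hp2⟩ := hall hG UT (by
    intro N hN v hv hm
    exact (hUT1' N hN).1 ⟨v, hv, hm⟩)
  have hq : ∀ N : U, ∃ u, π u = N ∧ (¬ Dm N → N ∉ UT →
      ∃ w, (π w ∈ DQ ∨ π w ∈ UT) ∧ Ex G u w) := by
    intro N
    by_cases h : ¬ Dm N ∧ N ∉ UT
    · obtain ⟨u, w, h1, h2, h3⟩ := hUT3' N h.1 h.2
      exact ⟨u, h1, fun _ _ => ⟨w, h2, h3⟩⟩
    · obtain ⟨v, hv⟩ := hsur N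
      exact ⟨v, hv, fun h1 h2 => absurd ⟨h1, h2⟩ h⟩
  choose q hq1 hq2 using hq
  have hbc : ∀ N : U, ∃ b c : V, π b = N ∧ π c = N ∧ (Dm N → Dia G b c) := by
    intro N
    by_cases h : Dm N
    · obtain ⟨v, hv, hm⟩ := h
      obtain ⟨c, a, d, h1, h2, h3, h4, h5, h6, h7, h8, h9, h10, h11, h12⟩ := diamond hG v hm
      refine ⟨v, c, hv, ?_, fun _ => ⟨hm, h11, h1, a, d, h4, h5, h2, h3, h6, h7, h8, h9, h10, h12⟩⟩
      rw [← hv]
      exact ((hπ v c).2 ((h12 c).2 (by simp))).symm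
    · obtain ⟨v, hv⟩ := hsur N
      exact ⟨v, v, hv, hv, fun h' => absurd h' h⟩
  choose b c hb1 hc1 hbc using hbc
  let ptd : U → Prop := fun N => ∃ M w, ¬ Dm M ∧ M ∉ UT ∧ Ex G (q M) w ∧ π w = N
  let isD : V → Prop := fun v => (π v ∈ DQ ∧ v = c (π v)) ∨ (π v ∈ UT ∧ v = p (π v))
  let Cd : V → Prop := fun v => Dm (π v) ∧ (π v ∈ DQ → ¬ ptd (π v)) ∧ v = b (π v)
  let K : U → Prop := fun N => ¬ Dm N ∧ N ∉ UT
  have F1 : ∀ u v, isD u → isD v → π u = π v → u = v := by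
    rintro u v (⟨h1, h2⟩ | ⟨h1, h2⟩) (⟨h3, h4⟩ | ⟨h3, h4⟩) h
    · rw [h2, h4, h]
    · exact absurd (hDQ1' _ h1) (h ▸ (hUT1' _ h3).1)
    · exact absurd (hDQ1' _ h3) (h ▸ (hUT1' _ h1).1)
    · rw [h2, h4, h]
  have F2 : ∀ u v, isD u → isD v → ¬ AU (π u) (π v) := by
    rintro u v hu hv h
    have hne : π u ≠ π v := by
      obtain ⟨x, y, h1, h2, h3⟩ := h
      rw [← h1, ← h2]
      exact hex _ _ h3
    rcases hu with ⟨h1, -⟩ | ⟨h1, -⟩ <;> rcases hv with ⟨h3, -⟩ | ⟨h3, -⟩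
    · exact hDQ2 _ h1 _ h3 hne h
    · exact (hUT1' _ h3).2 _ h1 (hAU _ _ h)
    · exact (hUT1' _ h1).2 _ h3 h
    · exact hUT2 _ h1 _ h3 hne h
  have F3 : ∀ u w, isD u → Ex G u w → π u ∈ UT ∧ u = p (π u) := by
    rintro u w (⟨h1, h2⟩ | h) huw
    · exfalso
      have := (hbc _ (hDQ1' _ h1)).2.1
      rw [← h2] at this
      exact mid_no_ex this huw
    · exact h
  have F4 : ∀ u v w w', isD u → isD v → Ex G u w → Ex G v w' → π w = π w' → u = v := by
    intro u v w w' hu hv h1 h2 h3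
    obtain ⟨k1, k2⟩ := F3 u w hu h1
    obtain ⟨k3, k4⟩ := F3 v w' hv h2
    rw [k2] at h1
    rw [k4] at h2
    have := hp2 _ k1 _ k3 w w' h1 h2 h3
    rw [k2, k4, this]
  have hAUex : ∀ u v, Ex G u v → AU (π u) (π v) := fun u v h => ⟨u, v, rfl, rfl, h⟩
  have p3 : ∀ u v, G.Adj u v → isD u → isD v → False := by
    intro u v h hu hv
    rcases adj_cases h with h | h
    · exact h.1.ne (F1 u v hu hv (hin _ _ h))
    · exact F2 u v hu hv (hAUex _ _ h)
  have q3 : ∀ u v w, G.Adj u v → G.Adj v w → u ≠ w → isD u → isD w → False := by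
    intro u v w h1 h2 hne hu hw
    rcases adj_cases h1 with h1 | h1 <;> rcases adj_cases h2 with h2 | h2
    · exact hne (F1 u w hu hw ((hin _ _ h1).trans (hin _ _ h2)))
    · apply F2 u w hu hw
      rw [hin _ _ h1]
      exact hAUex _ _ h2
    · apply F2 u w hu hw
      rw [← hin _ _ h2]
      exact hAUex _ _ h1
    · exact hne (ex_unique hG h1.symm h2)
  refine ⟨isD, Cd, K, q, hq1, p3, q3, ?_, ?_, ?_, ?_, ?_, ?_, ?_, ?_⟩
  · intro u v w x h1 h2 h3 hne hu hx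
    rcases adj_cases h1 with k1 | k1 <;> rcases adj_cases h2 with k2 | k2 <;>
      rcases adj_cases h3 with k3 | k3
    · exact hne (F1 u x hu hx ((hin _ _ k1).trans ((hin _ _ k2).trans (hin _ _ k3))))
    · apply F2 u x hu hx
      rw [hin _ _ k1, hin _ _ k2]
      exact hAUex _ _ k3
    · apply F2 u x hu hx
      rw [hin _ _ k1, ← hin _ _ k3]
      exact hAUex _ _ k2
    · have := ex_unique hG k2.symm k3
      subst this
      exact p3 u v h1 hu hx
    · apply F2 u x hu hx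
      rw [← hin _ _ k3, ← hin _ _ k2]
      exact hAUex _ _ k1
    · exact hne (F4 u x v w hu hx k1 k3.symm (hin _ _ k2))
    · have := ex_unique hG k1.symm k2
      subst this
      exact p3 u x h3 hu hx
    · have := ex_unique hG k1.symm k2
      subst this
      exact p3 u x h3 hu hx
  · rintro N ⟨h1, h2⟩ v hv hm
    exact h1 ⟨v, hv, hm⟩
  · rintro v ⟨h1, -, h2⟩
    rw [h2]
    exact (hbc _ h1).1
  · rintro u v ⟨-, -, h1⟩ ⟨-, -, h2⟩ h
    rw [h1, h2]
    exact congrArg b h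
  · rintro N ⟨h1, h2⟩ w hw
    obtain ⟨w', hw1, hw2⟩ := hq2 _ h1 h2
    have := ex_unique hG hw hw2
    subst this
    refine ⟨?_, ?_⟩
    · rintro ⟨h3, h4⟩
      rcases hw1 with hw1 | hw1
      · exact h3 (hDQ1' _ hw1)
      · exact h4 hw1
    · rintro x hx ⟨h3, h4, -⟩
      have hx' : π x = π w := hx
      rcases hw1 with hw1 | hw1
      · rw [hx'] at h4
        exact h4 hw1 ⟨N, w, h1, h2, hw, rfl⟩
      · rw [hx'] at h3
        exact (hUT1' _ hw1).1 h3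
  · intro N hN hm
    have hD : ¬ Dm N := by
      rintro ⟨v, hv, hm'⟩
      exact hm v hv hm'
    have hU : N ∈ UT := by
      by_contra h
      exact hN ⟨hD, h⟩
    refine ⟨p N, hp1 N hU, Or.inr ⟨?_, ?_⟩⟩
    · rw [show π (p N) = N from hp1 N hU]; exact hU
    · rw [show π (p N) = N from hp1 N hU]
  · intro u v huv hu hv
    by_contra hcon
    push Not at hcon
    obtain ⟨h1, h2⟩ := hcon
    have hDu : ¬ Dm (π u) := by
      rintro ⟨x, hx, hm'⟩
      exact hu x hx hm'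
    have hDv : ¬ Dm (π v) := by
      rintro ⟨x, hx, hm'⟩
      exact hv x hx hm'
    have hUu : π u ∈ UT := by
      by_contra h
      exact h1 ⟨hDu, h⟩
    have hUv : π v ∈ UT := by
      by_contra h
      exact h2 ⟨hDv, h⟩
    exact hUT2 _ hUu _ hUv (hex _ _ huv) (hAUex _ _ huv)
  · intro S hSF hS
    have c1 : ∀ N ∈ DQ, ∀ v, π v = N → v ∉ S := by
      intro N hN v hv
      have hD := hbc N (hDQ1' N hN)
      have hcS : c N ∉ S := by
        intro h
        apply (hSF _ h).1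
        left
        rw [hc1]
        exact ⟨hN, rfl⟩
      have hRv : R G (b N) v := (hπ _ _).1 (by rw [hb1, hv])
      by_cases hpt : ptd N
      · obtain ⟨M, w, hM1, hM2, hM3, hM4⟩ := hpt
        have hqS : q M ∉ S := by
          intro h
          have := (hSF _ h).2.2
          rw [show Quotient.mk (st hG) (q M) = M from hq1 M] at this
          exact this ⟨hM1, hM2⟩ rfl
        have hRw : R G (b N) w := (hπ _ _).1 (by rw [hb1, hM4])
        exact dia_drop hG S hS hD (Or.inr hcS) hRw hM3.symm hqS v hRv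
      · have hbS : b N ∉ S := by
          intro h
          apply (hSF _ h).2.1
          refine ⟨?_, ?_, ?_⟩
          · rw [hb1]; exact hDQ1' N hN
          · rw [hb1]; exact fun _ => hpt
          · rw [hb1]
        exact dia_drop2 S hS hD hbS hcS v hRv
    have c2 : ∀ N, Dm N → ∀ v, π v = N → v ∉ S := by
      intro N hDm v hv
      by_cases hN : N ∈ DQ
      · exact c1 N hN v hv
      · have hD := hbc N hDm
        have hRv : R G (b N) v := (hπ _ _).1 (by rw [hb1, hv])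
        obtain ⟨M, hM, x, y, h1, h2, h3⟩ := hDQ3' N hDm hN
        have hbS : b N ∉ S := by
          intro h
          apply (hSF _ h).2.1
          refine ⟨?_, ?_, ?_⟩
          · rw [hb1]; exact hDm
          · rw [hb1]; exact fun h => absurd h hN
          · rw [hb1]
        have hRx : R G (b N) x := (hπ _ _).1 (by rw [hb1, h1])
        exact dia_drop hG S hS hD (Or.inl hbS) hRx h3 (c1 M hM y h2) v hRv
    intro v hv x hx hm
    exact c2 (π v) ⟨x, hx, hm⟩ v rfl hv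

end Pool.Agent.K9h7.CFS
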