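import Pool.Agent.K9h7.CFS.Config

namespace Pool.Agent.K9h7.CFS

open Pool.Agent.H7X.CF

universe u

variable {V : Type u} {G : SimpleGraph V}

/-- Every vertex of `S` has two neighbours in `S`. -/
def Two (G : SimpleGraph V) (S : Finset V) : Prop :=
  ∀ v ∈ S, ∃ x ∈ S, ∃ y ∈ S, x ≠ y ∧ G.Adj v x ∧ G.Adj v y

/-- The neighbourhood of a vertex of a closed set in a triangle with a missing vertex. -/
lemma core_nb (hG : CF G) {S : Finset V} (hS : Two G S) {x z : V} (hx : x ∈ S)
    (hm : ∀ w, R G x w → ¬ Mid G w) (hz : R G x z) (hzS : z ∉ S) :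
    ∃ y e, y ∈ S ∧ e ∈ S ∧ y ≠ z ∧ y ≠ e ∧ z ≠ e ∧ x ≠ y ∧ x ≠ z ∧ Ex G x e ∧
      (∀ w, G.Adj x w ↔ w = y ∨ w = z ∨ w = e) ∧ (∀ w, R G x w ↔ w = x ∨ w = y ∨ w = z) := by
  obtain ⟨s, t, h1, h2, h3, h4, h5, h6, hR⟩ := triangle hG x hm
  obtain ⟨s', t', e, k1, k2, k3, k4, k5, k6, k7, k⟩ := nonmid hG x (hm x (Or.inl rfl))
  have hxz : x ≠ z := by rintro rfl; exact hzS hx
  have main : ∀ s t : V, x ≠ s → x ≠ t → s ≠ t → z = t → G.Adj x s → G.Adj x t → G.Adj s t →
      (∀ w, R G x w ↔ w = x ∨ w = s ∨ w = t) → ∃ y e, y ∈ S ∧ e ∈ S ∧ y ≠ z ∧ y ≠ e ∧ z ≠ e ∧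
      x ≠ y ∧ x ≠ z ∧ Ex G x e ∧
      (∀ w, G.Adj x w ↔ w = y ∨ w = z ∨ w = e) ∧ (∀ w, R G x w ↔ w = x ∨ w = y ∨ w = z) := by
    intro s t h1 h2 h3 hzt h4 h5 h6 hR
    subst hzt
    have hse : s ≠ e := by
      rintro rfl
      exact not_in_ex ⟨h4, z, h5, h6⟩ k5
    have hze : z ≠ e := by
      rintro rfl
      exact not_in_ex ⟨h5, s, h4, h6.symm⟩ k5
    have hN : ∀ w, G.Adj x w ↔ w = s ∨ w = z ∨ w = e := by
      have a1 := (k s).1 h4
      have a2 := (k z).1 h5
      intro w
      rw [k w]
      grind
    obtain ⟨p, hp, r, hr, hpr, hxp, hxr⟩ := hS x hx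
    have b1 := (hN p).1 hxp
    have b2 := (hN r).1 hxr
    have b3 : p ≠ z := fun h => hzS (h ▸ hp)
    have b4 : r ≠ z := fun h => hzS (h ▸ hr)
    have hsS : s ∈ S ∧ e ∈ S := by
      rcases b1 with rfl | rfl | rfl
      · rcases b2 with rfl | rfl | rfl
        · exact absurd rfl hpr
        · exact absurd rfl b4
        · exact ⟨hp, hr⟩
      · exact absurd rfl b3
      · rcases b2 with rfl | rfl | rfl
        · exact ⟨hr, hp⟩
        · exact absurd rfl b4
        · exact absurd rfl hpr
    exact ⟨s, e, hsS.1, hsS.2, h3, hse, hze, h1, hxz, k5, hN, hR⟩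
  rcases (hR z).1 hz with h | h | h
  · exact absurd h.symm hxz
  · exact main t s h2 h1 h3.symm h h5 h4 h6.symm (fun w => by rw [hR w]; tauto)
  · exact main s t h1 h2 h3 h h4 h5 h6 hR

/-- Free vertices: neither in `D` nor in `C`. -/
def Free (hG : CF G) (D Cd : V → Prop) (K : Quotient (st hG) → Prop)
    (q : Quotient (st hG) → V) (v : V) : Prop :=
  ¬ D v ∧ ¬ Cd v ∧ (K (Quotient.mk (st hG) v) → v ≠ q (Quotient.mk (st hG) v))

/-- Closed sets of free vertices. -/
def Cl (hG : CF G) (D Cd : V → Prop) (K : Quotient (st hG) → Prop)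
    (q : Quotient (st hG) → V) (S : Finset V) : Prop :=
  (∀ v ∈ S, Free hG D Cd K q v) ∧ Two G S

open Classical in
/-- The exchange step. -/
lemma exchange [Finite V] (hG : CF G) (D Cd : V → Prop) (K : Quotient (st hG) → Prop)
    (q : Quotient (st hG) → V) (hq : ∀ N, Quotient.mk (st hG) (q N) = N)
    (hK : ∀ N, ¬ K N → (∀ v, Quotient.mk (st hG) v = N → ¬ Mid G v) →
        ∃ v, Quotient.mk (st hG) v = N ∧ D v)
    (S : Finset V) (hS : Cl hG D Cd K q S)
    (hmid : ∀ v ∈ S, ∀ x, Quotient.mk (st hG) x = Quotient.mk (st hG) v → ¬ Mid G x)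
    {a b : V} (ha : a ∈ S) (hKa : K (Quotient.mk (st hG) a)) (hab : Ex G a b)
    (S' : Finset V)
    (hS' : Cl hG D Cd K (Function.update q (Quotient.mk (st hG) a) a) S') :
    Cl hG D Cd K q S' ∧ a ∉ S' := by
  classical
  have hFt : Fintype V := Fintype.ofFinite V
  set π : V → Quotient (st hG) := Quotient.mk (st hG) with hπd
  have hπ : ∀ u v, π u = π v ↔ R G u v := fun u v => Quotient.eq (r := st hG)
  set a'' := q (π a) with ha''
  have hpa : π a'' = π a := hq _
  have haS' : a ∉ S' := by
    intro h
    have := (hS'.1 a h).2.2 hKa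
    rw [Function.update_self] at this
    exact this rfl
  have ha''S : a'' ∉ S := by
    intro h
    have := (hS.1 a'' h).2.2
    rw [show Quotient.mk (st hG) a'' = Quotient.mk (st hG) a from hpa] at this
    exact this hKa rfl
  have hma : ∀ w, R G a w → ¬ Mid G w := fun w hw => hmid a ha w ((hπ _ _).2 hw).symm
  obtain ⟨a', e, ha'S, heS, e1, e2, e3, e4, e5, e6, e7, e8⟩ :=
    core_nb hG hS.2 ha hma ((hπ _ _).1 hpa.symm) ha''S
  refine ⟨⟨?_, hS'.2⟩, haS'⟩
  -- `a''` is not in `S'`
  have key : a'' ∉ S' := by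
    intro ha''S'
    have hma'' : ∀ w, R G a'' w → ¬ Mid G w := fun w hw =>
      hmid a ha w (((hπ _ _).2 hw).symm.trans hpa)
    obtain ⟨y, f, hyS', hfS', f1, f2, f3, f4, f5, f6, f7, f8⟩ :=
      core_nb hG hS'.2 ha''S' hma'' ((hπ _ _).1 hpa) haS'
    have hpa' : π a' = π a := ((hπ _ _).2 ((e8 a').2 (by simp))).symm
    have hy : a' = y := by
      have : R G a'' a' := (hπ _ _).1 (hpa.trans hpa'.symm)
      rcases (f8 a').1 this with h | h | h
      · exact absurd h e1
      · exact h
      · exact absurd h.symm e4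
    subst hy
    -- the parity argument
    let H : SimpleGraph V :=
      { Adj := fun x y => G.Adj x y ∧ (x ∈ S ∧ x ∈ S') ∧ (y ∈ S ∧ y ∈ S')
        symm := ⟨fun x y h => ⟨h.1.symm, h.2.2, h.2.1⟩⟩
        loopless := ⟨fun x h => G.loopless.irrefl x h.1⟩ }
    have hHadj : ∀ x y, H.Adj x y ↔ G.Adj x y ∧ (x ∈ S ∧ x ∈ S') ∧ (y ∈ S ∧ y ∈ S') :=
      fun x y => Iff.rfl
    have hdeg : ∀ x, Odd (H.degree x) ↔ x = a' := by
      intro x
      by_cases hxW : x ∈ S ∧ x ∈ S'
      · obtain ⟨hxS, hxS'⟩ := hxW
        have hmx : ∀ w, R G x w → ¬ Mid G w := fun w hw => hmid x hxS w ((hπ _ _).2 hw).symm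
        by_cases hxa : x = a'
        · subst hxa
          obtain ⟨y0, e0, g1, g2, g3, g4, g5, g6, g7, g8, g9, g10⟩ :=
            core_nb hG hS.2 hxS hmx ((hπ _ _).1 (hpa'.trans hpa.symm)) ha''S
          have hy0 : a = y0 := by
            rcases (g10 a).1 ((hπ _ _).1 hpa') with h | h | h
            · exact absurd h e4
            · exact h
            · exact absurd h e5
          subst hy0
          have he0 : e0 ∈ S' := by
            obtain ⟨p, hp, r, hr, hpr, hxp, hxr⟩ := hS'.2 _ hxS'
            have b1 := (g9 p).1 hxp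
            have b2 := (g9 r).1 hxr
            have b3 : p ≠ a := fun h => haS' (h ▸ hp)
            have b4 : r ≠ a := fun h => haS' (h ▸ hr)
            rcases b1 with b1 | b1 | b1
            · exact absurd b1 b3
            · rcases b2 with b2 | b2 | b2
              · exact absurd b2 b4
              · exact absurd (b1.trans b2.symm) hpr
              · exact b2 ▸ hr
            · exact b1 ▸ hp
          have : H.neighborFinset x = {e0} := by
            ext w
            rw [SimpleGraph.mem_neighborFinset, hHadj, Finset.mem_singleton, g9]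
            constructor
            · rintro ⟨h | h | h, -, h4⟩
              · exact absurd (h ▸ h4.2) haS'
              · exact absurd (h ▸ h4.1) ha''S
              · exact h
            · rintro rfl
              exact ⟨Or.inr (Or.inr rfl), ⟨hxS, hxS'⟩, g2, he0⟩
          rw [← SimpleGraph.card_neighborFinset_eq_degree, this]
          simp
        · have hz : ∃ z, π z = π x ∧ ((K (π z) ∧ z = q (π z)) ∨ D z) := by
            by_cases hKx : K (π x)
            · refine ⟨q (π x), hq _, Or.inl ?_⟩
              rw [show π (q (π x)) = π x from hq _]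
              exact ⟨hKx, rfl⟩
            · obtain ⟨z, hz1, hz2⟩ := hK (π x) hKx (fun v hv => hmid x hxS v hv)
              exact ⟨z, hz1, Or.inr hz2⟩
          obtain ⟨z, hz1, hz2⟩ := hz
          have hzS : z ∉ S := by
            intro h
            rcases hz2 with ⟨h1, h2⟩ | h1
            · exact (hS.1 z h).2.2 h1 h2
            · exact (hS.1 z h).1 h1
          have hzS' : z ∉ S' := by
            intro h
            rcases hz2 with ⟨h1, h2⟩ | h1
            · have h3 := (hS'.1 z h).2.2 h1
              have h4 : π z = π a := by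
                by_contra h4
                rw [Function.update_of_ne h4] at h3
                exact h3 h2
              have h5 : R G a x := (hπ _ _).1 (h4.symm.trans hz1)
              rcases (e8 x).1 h5 with h6 | h6 | h6
              · exact haS' (h6 ▸ hxS')
              · exact hxa h6
              · exact ha''S (h6 ▸ hxS)
            · exact (hS'.1 z h).1 h1
          obtain ⟨y0, e0, g1, g2, g3, g4, g5, g6, g7, g8, g9, g10⟩ :=
            core_nb hG hS.2 hxS hmx ((hπ _ _).1 hz1.symm) hzS
          have hye : y0 ∈ S' ∧ e0 ∈ S' := by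
            obtain ⟨p, hp, r, hr, hpr, hxp, hxr⟩ := hS'.2 _ hxS'
            have b1 := (g9 p).1 hxp
            have b2 := (g9 r).1 hxr
            have b3 : p ≠ z := fun h => hzS' (h ▸ hp)
            have b4 : r ≠ z := fun h => hzS' (h ▸ hr)
            rcases b1 with b1 | b1 | b1
            · rcases b2 with b2 | b2 | b2
              · exact absurd (b1.trans b2.symm) hpr
              · exact absurd b2 b4
              · exact ⟨b1 ▸ hp, b2 ▸ hr⟩
            · exact absurd b1 b3
            · rcases b2 with b2 | b2 | b2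
              · exact ⟨b2 ▸ hr, b1 ▸ hp⟩
              · exact absurd b2 b4
              · exact absurd (b1.trans b2.symm) hpr
          have : H.neighborFinset x = {y0, e0} := by
            ext w
            rw [SimpleGraph.mem_neighborFinset, hHadj, Finset.mem_insert, Finset.mem_singleton, g9]
            constructor
            · rintro ⟨h | h | h, -, h4⟩
              · exact Or.inl h
              · exact absurd (h ▸ h4.1) hzS
              · exact Or.inr h
            · rintro (rfl | rfl)
              · exact ⟨Or.inl rfl, ⟨hxS, hxS'⟩, g1, hye.1⟩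
              · exact ⟨Or.inr (Or.inr rfl), ⟨hxS, hxS'⟩, g2, hye.2⟩
          rw [← SimpleGraph.card_neighborFinset_eq_degree, this, Finset.card_pair g4]
          simp [hxa]
      · have h0 : H.neighborFinset x = ∅ := by
          rw [Finset.eq_empty_iff_forall_notMem]
          intro w hw
          rw [SimpleGraph.mem_neighborFinset, hHadj] at hw
          exact hxW hw.2.1
        rw [← SimpleGraph.card_neighborFinset_eq_degree, h0]
        constructor
        · intro h
          simp at h
        · rintro rfl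
          exact absurd ⟨ha'S, hyS'⟩ hxW
    have hev := H.even_card_odd_degree_vertices
    have hone : (Finset.univ.filter fun v => Odd (H.degree v)) = {a'} := by
      ext v
      rw [Finset.mem_filter, Finset.mem_singleton]
      constructor
      · rintro ⟨-, h⟩
        exact (hdeg v).1 h
      · intro h
        exact ⟨Finset.mem_univ _, (hdeg v).2 h⟩
    rw [hone, Finset.card_singleton] at hev
    exact absurd hev (by decide)
  intro v hv
  refine ⟨(hS'.1 v hv).1, (hS'.1 v hv).2.1, fun hKv hvq => ?_⟩
  by_cases h : π v = π a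
  · apply key
    have : v = a'' := by
      rw [ha'', ← h]
      exact hvq
    exact this ▸ hv
  · have := (hS'.1 v hv).2.2 hKv
    rw [Function.update_of_ne h] at this
    exact this hvq

end Pool.Agent.K9h7.CFS
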