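import Pool.Agent.K9h7.CFS.Marked
import Pool.Agent.K9h7.CFS.B1
import Pool.Agent.K9h7.CFS.B2

namespace Pool.Agent.K9h7.CFS

open Pool.Agent.H7X.CF

universe u

/-- Claw-free graphs of maximum degree at most three. -/
theorem good_sub : S_sub.{u} := B2 (B1 A_marked)

end Pool.Agent.K9h7.CFS
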