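import Pool.Agent.K9h7.CFS.Exch

namespace Pool.Agent.K9h7.CFS

open Pool.Agent.H7X.CF

universe u

/-- Signed version of `two_col_of_core`. -/
theorem two_col_signed {V : Type*} [DecidableEq V] (A s : V → V → Prop)
    (hs : ∀ x y, A x y → A y x) (hss : ∀ x y, s x y → s y x) (hi : ∀ x, ¬ A x x)
    (P : Finset V → Prop) (hP : ∀ S v, P S → P (S.erase v))
    (H : ∀ S : Finset V, P S → (∀ v ∈ S, ∃ x ∈ S, ∃ y ∈ S, x ≠ y ∧ A v x ∧ A v y) →
      ∃ f : V → Bool, ∀ x ∈ S, ∀ y ∈ S, A x y → (f x = f y ↔ s x y)) (n : ℕ) :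
    ∀ S : Finset V, S.card ≤ n → P S →
      ∃ f : V → Bool, ∀ x ∈ S, ∀ y ∈ S, A x y → (f x = f y ↔ s x y) := by
  classical
  induction n with
  | zero =>
    intro S hS _
    have : S = ∅ := Finset.card_eq_zero.1 (by omega)
    subst this
    exact ⟨fun _ => true, by simp⟩
  | succ n ih =>
    intro S hS hPS
    by_cases h : ∀ v ∈ S, ∃ x ∈ S, ∃ y ∈ S, x ≠ y ∧ A v x ∧ A v y
    · exact H S hPS h
    · push Not at h
      obtain ⟨v, hv, h⟩ := h
      have hcard : (S.erase v).card ≤ n := by
        have := Finset.card_erase_of_mem hv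
        omega
      obtain ⟨f, hf⟩ := ih (S.erase v) hcard (hP S v hPS)
      have key : ∃ b : Bool, ∀ x ∈ S, A v x → (b = f x ↔ s v x) := by
        by_cases hx : ∃ x ∈ S, A v x
        · obtain ⟨x, hx, hvx⟩ := hx
          by_cases hsx : s v x
          · refine ⟨f x, ?_⟩
            intro y hy hvy
            by_cases hxy : x = y
            · subst hxy
              simp [hsx]
            · exact absurd hvy (h x hx y hy hxy hvx)
          · refine ⟨!(f x), ?_⟩
            intro y hy hvy
            by_cases hxy : x = y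
            · subst hxy
              simp [hsx]
            · exact absurd hvy (h x hx y hy hxy hvx)
        · exact ⟨true, fun x hx' hvx => absurd ⟨x, hx', hvx⟩ hx⟩
      obtain ⟨b, hb⟩ := key
      refine ⟨fun z => if z = v then b else f z, ?_⟩
      intro x hx y hy hxy
      by_cases h1 : x = v
      · have h2 : y ≠ v := by
          rintro rfl
          subst h1
          exact hi _ hxy
        subst h1
        simp only [if_true, h2, if_false]
        exact hb y hy hxy
      · by_cases h2 : y = v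
        · subst h2
          simp only [if_true, h1, if_false]
          rw [eq_comm, hb x hx (hs _ _ hxy)]
          exact ⟨hss _ _, hss _ _⟩
        · simp only [h1, h2, if_false]
          exact hf x (Finset.mem_erase.2 ⟨h1, hx⟩) y (Finset.mem_erase.2 ⟨h2, hy⟩) hxy

variable {V : Type u} {G : SimpleGraph V}

open Classical in
/-- Repeated exchange. -/
lemma reduce [Finite V] (hG : CF G) (s : V → V → Prop) (hs : ∀ u v, s u v → s v u)
    (hse : ∀ u v, s u v → Ex G u v) (D Cd : V → Prop) (K : Quotient (st hG) → Prop)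
    (hCd : ∀ v, Cd v → Mid G v)
    (hK : ∀ N, ¬ K N → (∀ v, Quotient.mk (st hG) v = N → ¬ Mid G v) →
        ∃ v, Quotient.mk (st hG) v = N ∧ D v)
    (hKK : ∀ u v, Ex G u v → (∀ x, Quotient.mk (st hG) x = Quotient.mk (st hG) u → ¬ Mid G x) →
        (∀ x, Quotient.mk (st hG) x = Quotient.mk (st hG) v → ¬ Mid G x) →
        K (Quotient.mk (st hG) u) ∨ K (Quotient.mk (st hG) v)) (n : ℕ) :
    ∀ q : Quotient (st hG) → V, (∀ N, Quotient.mk (st hG) (q N) = N) →
      (∀ N, K N → ∀ w, Ex G (q N) w → (¬ K (Quotient.mk (st hG) w) ∧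
        ∀ x, Quotient.mk (st hG) x = Quotient.mk (st hG) w → ¬ Cd x) ∨
        (s (q N) w ∧ (K (Quotient.mk (st hG) w) → w ≠ q (Quotient.mk (st hG) w)))) →
      ∀ S : Finset V, (∀ S', Cl hG D Cd K q S' → S' ⊆ S) → S.card ≤ n →
      (∀ v ∈ S, ∀ x, Quotient.mk (st hG) x = Quotient.mk (st hG) v → ¬ Mid G x) →
      ∃ q' : Quotient (st hG) → V, (∀ N, Quotient.mk (st hG) (q' N) = N) ∧
      (∀ N, K N → ∀ w, Ex G (q' N) w → (¬ K (Quotient.mk (st hG) w) ∧
        ∀ x, Quotient.mk (st hG) x = Quotient.mk (st hG) w → ¬ Cd x) ∨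
        (s (q' N) w ∧ (K (Quotient.mk (st hG) w) → w ≠ q' (Quotient.mk (st hG) w)))) ∧
      (∀ S', Cl hG D Cd K q' S' →
        (∀ v ∈ S', ∀ x, Quotient.mk (st hG) x = Quotient.mk (st hG) v → ¬ Mid G x) ∧
        ∀ a ∈ S', ∀ b ∈ S', ¬ s a b) := by
  classical
  have hFt : Fintype V := Fintype.ofFinite V
  let π : V → Quotient (st hG) := Quotient.mk (st hG)
  have hπ : ∀ u v, π u = π v ↔ R G u v := fun u v => Quotient.eq (r := st hG)
  have hex : ∀ u v, Ex G u v → π u ≠ π v := fun u v h h' => not_R_ex ((hπ u v).1 h') h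
  induction n with
  | zero =>
    intro q hq hJ S hS hcard hmid
    refine ⟨q, hq, hJ, ?_⟩
    intro S' hS'
    have h0 : S = ∅ := Finset.card_eq_zero.1 (by omega)
    have h1 : S' = ∅ := by
      have := hS S' hS'
      rw [h0] at this
      exact Finset.subset_empty.1 this
    subst h1
    simp
  | succ n ih =>
    intro q hq hJ S hS hcard hmid
    by_cases hfin : ∀ S', Cl hG D Cd K q S' → ∀ a ∈ S', ∀ b ∈ S', ¬ s a b
    · exact ⟨q, hq, hJ, fun S' hS' => ⟨fun v hv => hmid v (hS S' hS' hv), hfin S' hS'⟩⟩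
    · push Not at hfin
      obtain ⟨S₁, hS₁, a₁, ha₁, b₁, hb₁, hab₁⟩ := hfin
      -- the largest closed set
      let M : Finset V := Finset.univ.filter fun v => ∃ S', Cl hG D Cd K q S' ∧ v ∈ S'
      have hM : ∀ v, v ∈ M ↔ ∃ S', Cl hG D Cd K q S' ∧ v ∈ S' := fun v => by simp [M]
      have hMmax : ∀ S', Cl hG D Cd K q S' → S' ⊆ M := fun S' h v hv => (hM v).2 ⟨S', h, hv⟩
      have hMS : M ⊆ S := by
        intro v hv
        obtain ⟨S', h1, h2⟩ := (hM v).1 hv
        exact hS S' h1 h2
      have hMcl : Cl hG D Cd K q M := by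
        refine ⟨?_, ?_⟩
        · intro v hv
          obtain ⟨S', h1, h2⟩ := (hM v).1 hv
          exact h1.1 v h2
        · intro v hv
          obtain ⟨S', h1, h2⟩ := (hM v).1 hv
          obtain ⟨x, hx, y, hy, h3⟩ := h1.2 v h2
          exact ⟨x, hMmax S' h1 hx, y, hMmax S' h1 hy, h3⟩
      have hMmid : ∀ v ∈ M, ∀ x, Quotient.mk (st hG) x = Quotient.mk (st hG) v → ¬ Mid G x :=
        fun v hv => hmid v (hMS hv)
      have hpair : ∃ a b, a ∈ M ∧ b ∈ M ∧ s a b ∧ K (π a) := by
        have ha := hMmax _ hS₁ ha₁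
        have hb := hMmax _ hS₁ hb₁
        rcases hKK a₁ b₁ (hse _ _ hab₁) (hMmid _ ha) (hMmid _ hb) with h | h
        · exact ⟨a₁, b₁, ha, hb, hab₁, h⟩
        · exact ⟨b₁, a₁, hb, ha, hs _ _ hab₁, h⟩
      obtain ⟨a, b, ha, hb, hab, hKa⟩ := hpair
      have hexab := hse _ _ hab
      have hstep := exchange hG D Cd K q hq hK M hMcl hMmid ha hKa hexab
      refine ih (Function.update q (π a) a) ?_ ?_ (M.erase a) ?_ ?_ ?_
      · intro N
        by_cases h : N = π a
        · subst h
          rw [Function.update_self]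
        · rw [Function.update_of_ne h]
          exact hq N
      · intro N hN w hw
        by_cases h : N = π a
        · subst h
          rw [Function.update_self] at hw ⊢
          have hwb : w = b := ex_unique hG hw hexab
          subst hwb
          right
          refine ⟨hab, fun hKw => ?_⟩
          have hne : π w ≠ π a := (hex _ _ hexab).symm
          rw [show Quotient.mk (st hG) w = π w from rfl, Function.update_of_ne hne]
          exact (hMcl.1 w hb).2.2 hKw
        · rw [Function.update_of_ne h] at hw ⊢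
          rcases hJ N hN w hw with h1 | ⟨h1, h2⟩
          · exact Or.inl h1
          · right
            refine ⟨h1, fun hKw => ?_⟩
            by_cases hwa : π w = π a
            · rw [show Quotient.mk (st hG) w = π w from rfl, hwa, Function.update_self]
              rintro rfl
              have hqb : q N = b := ex_unique hG hw.symm hexab
              have hNb : N = π b := by rw [← hqb]; exact (hq N).symm
              apply (hMcl.1 b hb).2.2
              · rw [show Quotient.mk (st hG) b = π b from rfl, ← hNb]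
                exact hN
              · rw [show Quotient.mk (st hG) b = π b from rfl, ← hNb, hqb]
            · rw [show Quotient.mk (st hG) w = π w from rfl, Function.update_of_ne hwa]
              exact h2 hKw
      · intro S' hS'
        obtain ⟨h1, h2⟩ := hstep S' hS'
        intro v hv
        refine Finset.mem_erase.2 ⟨?_, hMmax S' h1 hv⟩
        rintro rfl
        exact h2 hv
      · have h1 := Finset.card_erase_of_mem ha
        have h2 := Finset.card_le_card hMS
        omega
      · intro v hv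
        exact hMmid v (Finset.mem_erase.1 hv).2

/-- Leaf (A). -/
theorem A_marked : S_marked.{u} := by
  classical
  intro V _ G s hG hs hse
  have hFt : Fintype V := Fintype.ofFinite V
  let π : V → Quotient (st hG) := Quotient.mk (st hG)
  have hπ : ∀ u v, π u = π v ↔ R G u v := fun u v => Quotient.eq (r := st hG)
  have hin : ∀ u v, In G u v → π u = π v := fun u v h => (hπ u v).2 (Or.inr (Or.inl h))
  have hex : ∀ u v, Ex G u v → π u ≠ π v := fun u v h h' => not_R_ex ((hπ u v).1 h') h
  obtain ⟨D, Cd, K, q₀, hq₀, hD1, hD2, hD3, hKm, hCd, hCd1, hJ₀, hK, hKK, hcore⟩ := config hG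
  obtain ⟨q, hq, hJ, hfin⟩ := reduce hG s hs hse D Cd K hCd hK hKK
    (Finset.univ.filter fun v => ∃ S', Cl hG D Cd K q₀ S' ∧ v ∈ S').card q₀ hq₀
    (fun N hN w hw => Or.inl (hJ₀ N hN w hw))
    (Finset.univ.filter fun v => ∃ S', Cl hG D Cd K q₀ S' ∧ v ∈ S')
    (fun S' hS' v hv => Finset.mem_filter.2 ⟨Finset.mem_univ _, S', hS', hv⟩) le_rfl
    (by
      intro v hv
      obtain ⟨-, S', h1, h2⟩ := Finset.mem_filter.1 hv
      exact hcore S' h1.1 h1.2 v h2)
  let C : V → Prop := fun v => Cd v ∨ (K (π v) ∧ v = q (π v))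
  have C1 : ∀ u v, C u → C v → π u = π v → u = v := by
    rintro u v (h1 | ⟨h1, h2⟩) (h3 | ⟨h3, h4⟩) h
    · exact hCd1 u v h1 h3 h
    · exact absurd (hCd u h1) (hKm _ h3 u h)
    · exact absurd (hCd v h3) (hKm _ h1 v h.symm)
    · rw [h2, h4, h]
  have C2 : ∀ u w, C u → Ex G u w → (K (π u) ∧ u = q (π u)) := by
    rintro u w (h | h) huw
    · exact absurd huw (mid_no_ex (hCd u h))
    · exact h
  have C3 : ∀ u w, C u → Ex G u w → (∀ x, π x = π w → ¬ C x) ∨ (s u w ∧ ¬ C w) := by
    intro u w hu huw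
    obtain ⟨h1, h2⟩ := C2 u w hu huw
    have huw' := huw
    rw [h2] at huw'
    rcases hJ _ h1 w huw' with ⟨h3, h4⟩ | ⟨h3, h4⟩
    · left
      rintro x hx (h5 | ⟨h5, -⟩)
      · exact h4 x hx h5
      · rw [hx] at h5
        exact h3 h5
    · right
      rw [← h2] at h3
      refine ⟨h3, ?_⟩
      rintro (h5 | ⟨h5, h6⟩)
      · exact mid_no_ex (hCd w h5) huw.symm
      · exact h4 h5 h6
  have hF : ∃ g : V → Bool, ∀ x ∈ (Finset.univ.filter fun v => ¬ D v ∧ ¬ C v),
      ∀ y ∈ (Finset.univ.filter fun v => ¬ D v ∧ ¬ C v), G.Adj x y → (g x = g y ↔ s x y) := by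
    refine two_col_signed G.Adj s (fun x y h => h.symm) hs (fun x => G.loopless.irrefl x)
      (fun S => S ⊆ Finset.univ.filter fun v => ¬ D v ∧ ¬ C v)
      (fun S v h => (Finset.erase_subset _ _).trans h) ?_ _ _ le_rfl (Finset.Subset.refl _)
    intro S hSF hS
    have hfree : ∀ v ∈ S, Free hG D Cd K q v := by
      intro v hv
      obtain ⟨-, h1, h2⟩ := Finset.mem_filter.1 (hSF hv)
      exact ⟨h1, fun h => h2 (Or.inl h), fun h h' => h2 (Or.inr ⟨h, h'⟩)⟩
    obtain ⟨hmid, hnos⟩ := hfin S ⟨hfree, hS⟩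
    obtain ⟨g, hg⟩ := two_matchings S.card S (In G) (Ex G) le_rfl
      (fun _ _ _ _ h => h.symm) (fun _ _ _ _ h => h.symm)
      (fun x _ h => G.loopless.irrefl x h.1) (fun x _ h => G.loopless.irrefl x h.1)
      (by
        intro x hx y hy z hz hxy hxz
        by_contra hyz
        have hm : ∀ w, R G x w → ¬ Mid G w := fun w hw => hmid x hx w ((hπ x w).2 hw).symm
        obtain ⟨s', t, -, -, -, -, -, -, hR⟩ := triangle hG x hm
        have hhit : ∃ v, π v = π x ∧ v ∉ S := by
          by_cases hKx : K (π x)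
          · refine ⟨q (π x), hq _, fun h => ?_⟩
            have := (hfree _ h).2.2
            rw [show Quotient.mk (st hG) (q (π x)) = π x from hq _] at this
            exact this hKx rfl
          · obtain ⟨v, hv1, hv2⟩ := hK (π x) hKx (fun v hv => hmid x hx v hv)
            exact ⟨v, hv1, fun h => (hfree _ h).1 hv2⟩
        obtain ⟨v, hv1, hv2⟩ := hhit
        have a1 := (hR v).1 ((hπ x v).1 hv1.symm)
        have a2 := (hR y).1 (Or.inr (Or.inl hxy))
        have a3 := (hR z).1 (Or.inr (Or.inl hxz))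
        have a4 := hxy.1.ne
        have a5 := hxz.1.ne
        have b1 : v ≠ x := fun h => hv2 (h ▸ hx)
        have b2 : v ≠ y := fun h => hv2 (h ▸ hy)
        have b3 : v ≠ z := fun h => hv2 (h ▸ hz)
        grind)
      (fun x _ y _ z _ h h' => ex_unique hG h h')
    refine ⟨g, fun x hx y hy h => ?_⟩
    have h1 := hg x hx y hy (adj_cases h)
    have h2 := hnos x hx y hy
    exact ⟨fun h => absurd h h1, fun h => absurd h h2⟩
  obtain ⟨g, hg⟩ := hF
  refine ⟨D, C, g, hD1, hD2, hD3, ?_, ?_, ?_⟩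
  · intro u v h hu hv
    rcases adj_cases h with h | h
    · exact h.1.ne (C1 u v hu hv (hin _ _ h))
    · rcases C3 u v hu h with h1 | h1
      · exact h1 v rfl hv
      · exact h1.2 hv
  · intro u v w h1 h2 n1 n2 hne hu hw
    rcases adj_cases h1 with h1 | h1 <;> rcases adj_cases h2 with h2 | h2
    · exact hne (C1 u w hu hw ((hin _ _ h1).trans (hin _ _ h2)))
    · rcases C3 w v hw h2.symm with h3 | h3
      · exact h3 u (hin _ _ h1) hu
      · exact n2 (hs _ _ h3.1)
    · rcases C3 u v hu h1 with h3 | h3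
      · exact h3 w (hin _ _ h2).symm hw
      · exact n1 h3.1
    · exact hne (ex_unique hG h1.symm h2)
  · intro u v h h1 h2 h3 h4
    exact hg u (Finset.mem_filter.2 ⟨Finset.mem_univ _, h1, h2⟩) v
      (Finset.mem_filter.2 ⟨Finset.mem_univ _, h3, h4⟩) h

end Pool.Agent.K9h7.CFS
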