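import Pool.Agent.H7X.CF.All

/-! Plan for MP_b5f1b3_co, stronger form: every claw-free graph of maximum degree at most `3` is
`(1,1,2,3)`-packing colourable.

`(A)` `S_marked` (cubic graphs with marked external edges),
`(B1)` `S_marked → S_red`, `(B2)` `S_red → S_sub`. -/

namespace Pool.Agent.K9h7.CFS

open Pool.Agent.H7X.CF

universe u

/-- Maximum degree at most three. -/
def Sub {V : Type u} (G : SimpleGraph V) : Prop :=
  ∀ v a b c d, G.Adj v a → G.Adj v b → G.Adj v c → G.Adj v d →
    a = b ∨ a = c ∨ a = d ∨ b = c ∨ b = d ∨ c = d

/-- No claw. -/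
def Claw {V : Type u} (G : SimpleGraph V) : Prop :=
  ∀ v x y z, G.Adj v x → G.Adj v y → G.Adj v z → x ≠ y → x ≠ z → y ≠ z →
    G.Adj x y ∨ G.Adj x z ∨ G.Adj y z

/-- The vertex lies in a triangle. -/
def T {V : Type u} (G : SimpleGraph V) (v : V) : Prop :=
  ∃ x y, G.Adj v x ∧ G.Adj v y ∧ G.Adj x y

/-- Reduced graphs: no `K₄`; a vertex in no triangle is isolated or has exactly two neighbours,
both of them in triangles and without another common neighbour. -/
structure Red {V : Type u} (G : SimpleGraph V) : Prop where
  sub : Sub G
  claw : Claw G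
  noK : ∀ v x y z, G.Adj v x → G.Adj v y → G.Adj v z → G.Adj x y → G.Adj x z → G.Adj y z → False
  pt : ∀ v, ¬ T G v → (∀ w, ¬ G.Adj v w) ∨
    ∃ a b, a ≠ b ∧ (∀ w, G.Adj v w ↔ w = a ∨ w = b) ∧ T G a ∧ T G b ∧
      ∀ w, G.Adj a w → G.Adj b w → w = v

/-- (A) Cubic graphs with marked external edges (a marked edge stands for a path with one inner
vertex of degree two): `D` will be the 3-packing, `C` the 2-packing, `g` the two other colours. -/
def S_marked : Prop := ∀ (V : Type u) [Finite V] (G : SimpleGraph V) (s : V → V → Prop), CF G →
  (∀ u v, s u v → s v u) → (∀ u v, s u v → Ex G u v) →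
  ∃ (D C : V → Prop) (g : V → Bool),
    (∀ u v, G.Adj u v → D u → D v → False) ∧
    (∀ u v w, G.Adj u v → G.Adj v w → u ≠ w → D u → D w → False) ∧
    (∀ u v w x, G.Adj u v → G.Adj v w → G.Adj w x → u ≠ x → D u → D x → False) ∧
    (∀ u v, G.Adj u v → C u → C v → False) ∧
    (∀ u v w, G.Adj u v → G.Adj v w → ¬ s u v → ¬ s v w → u ≠ w → C u → C w → False) ∧
    (∀ u v, G.Adj u v → ¬ D u → ¬ C u → ¬ D v → ¬ C v → (g u = g v ↔ s u v))

def S_red : Prop := ∀ (V : Type u) [Finite V] (G : SimpleGraph V), Red G → ∃ f : V → Fin 4, Good G f

def S_sub : Prop := ∀ (V : Type u) [Finite V] (G : SimpleGraph V), Sub G → Claw G →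
  ∃ f : V → Fin 4, Good G f

/-!
Leaf B1: `theorem B1 : S_marked.{u} → S_red.{u}`.  `G` reduced.  Step 1 (doubling): `G2` on
`V × Bool`, two copies of `G` and the edges `(v,false)–(v,true)` for the `v` with `T G v` and
only two neighbours.  Now every vertex in a triangle has exactly three neighbours `y, z, e` with
`y ~ z` and `e` (external) not adjacent to `y, z` unless the vertex is a middle vertex of a diamond;
the other vertices are isolated or have exactly two neighbours, in triangles.  `G2` is reduced.
A `Good` colouring of `G2` restricted to one copy is `Good` for `G` (a copy is a subgraph).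
Step 2 (contraction): `W = {x : V × Bool // T G2 x}`, `H.Adj x y` iff `G2.Adj x y` or (`x ≠ y` and
there is `v` with `¬ T G2 v`, `G2.Adj x v`, `G2.Adj v y`); `s x y` iff the latter holds.  `H` is
`CF`, `s x y → Ex H x y`.  Take `D, C, g` from `S_marked`.  Colour `x ∈ W`: 3 if `D x`, else 2 if
`C x`, else `g x` (0 or 1).  Colour `v` with `¬ T v`: isolated: 0; neighbours `a, b`: a colour in
`{0, 1}` which is different from the colours of `a, b` (possible since `g a = g b` if both are
coloured 0 or 1).  A walk of length `≤ 3` in `G2` between vertices of `W` becomes a walk of length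
`≤ 3` in `H` (drop the vertices outside `W`), a walk of length `2` in `G2` between vertices of `W`
is an `H`-edge or consists of two unmarked edges.

Leaf B2: `theorem B2 : S_red.{u} → S_sub.{u}`.  Induction on the number of edges, `V` fixed.
(R0) If `X` is a set closed under adjacency and `f₁` is `Good` for the graph without the edges in
`X`, and `f₂` satisfies the conditions of `Good` for vertices in `X`, then the piecewise function is
`Good`.  (R1) `v` has exactly one neighbour `u`: delete the edge, recolour `v` by the colour in
`{0,1}` different from that of `u`.  (R2) `v₁ ~ v₂` both in no triangle, of degree two, with other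
neighbours `a ≠ b`: delete the three edges `a v₁, v₁ v₂, v₂ b` and add the edge `a b` (if missing);
the new graph satisfies `Sub`, `Claw`; its colouring has different colours at `a, b`; colour `v₁`,
`v₂` by `{0,1}` with `f v₁ ≠ f a`, `f v₂ ≠ f b`, `f v₁ ≠ f v₂`.  Distances are not larger in the new
graph.  (R3) a `K₄`: it is a component (by `Sub`); colour its four vertices differently.
(R4) `v` in no triangle with exactly two neighbours `a, b` in triangles with a common neighbour
`x ≠ v`: then `x` lies in a triangle with `a` and one with `b`; by degrees there is `x'` with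
`a, b ~ x'`, `x ~ x'`, and `{v, a, b, x, x'}` is a component; colours `x ↦ 2`, `x' ↦ 3`,
`a, b ↦ 0`, `v ↦ 1`.  If none applies, `G` is `Red`.  (A vertex in no triangle has at most two
neighbours by `Claw`.)
-/

end Pool.Agent.K9h7.CFS
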